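import Pool.Agent.Helper57_DGA.Fresh

set_option linter.unusedSectionVars false

namespace Pool.Agent.Helper57_DGA

open scoped RealInnerProductSpace
open Filter Topology

/-- step parameter -/
noncomputable def bb (n : ℕ) : ℝ := 1 / ((n : ℝ) + 10000)

lemma bb_pos (n : ℕ) : 0 < bb n := by unfold bb; positivity

lemma bb_le (n : ℕ) : bb n ≤ 1 / 10000 := by
  unfold bb
  apply one_div_le_one_div_of_le (by norm_num)
  linarith [(Nat.cast_nonneg n : (0:ℝ) ≤ n)]

lemma bb_succ_le (n : ℕ) : bb (n + 1) ≤ bb n := by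
  unfold bb
  apply one_div_le_one_div_of_le (by positivity)
  push_cast
  linarith

/-- shift -/
def sh : ℕ := 10000

lemma sh_cast : (sh : ℝ) = 10000 := by unfold sh; norm_num

lemma sh_pos : 1 ≤ sh := by unfold sh; norm_num

attribute [irreducible] sh

/-- slow vectors, shifted -/
noncomputable def S (n : ℕ) : HH := SS (n + sh)

/-- functionals -/
noncomputable def FF (n : ℕ) : HH := S n + bb n • sg (Sum.inr (n + 1))

/-- hull vectors -/
noncomputable def kk (n : ℕ) : HH := S n - (2000 : ℝ) • vv n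

/-- points -/
noncomputable def xx (n : ℕ) : HH := FF n + kk n

/-- fresh coefficient -/
noncomputable def VV (n m : ℕ) : ℝ := if n + 1 ≤ m then lam ^ (m - (n + 1)) else 0

lemma vv_VV (n m : ℕ) : (vv m) (Sum.inr (n + 1)) = VV n m := by
  rw [vv_apply_inr]
  unfold VV
  by_cases h : n + 1 ≤ m
  · rw [if_pos ⟨by omega, h⟩, if_pos h]
  · rw [if_neg (by omega), if_neg h]

lemma VV_nonneg (n m : ℕ) : 0 ≤ VV n m := by
  unfold VV lam
  split_ifs
  · positivity
  · exact le_rfl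

lemma VV_le_one (n m : ℕ) : VV n m ≤ 1 := by
  unfold VV lam
  split_ifs
  · exact pow_le_one₀ (by norm_num) (by norm_num)
  · norm_num

lemma VV_diff {n m : ℕ} (h : m ≠ n) : |VV n m - VV n (m + 1)| ≤ 1 / 100 := by
  unfold VV
  by_cases h1 : n + 1 ≤ m
  · rw [if_pos h1, if_pos (by omega), show m + 1 - (n + 1) = (m - (n + 1)) + 1 by omega, pow_succ]
    have h2 : lam ^ (m - (n + 1)) ≤ 1 := pow_le_one₀ (by unfold lam; norm_num) (by unfold lam; norm_num)
    have h3 : 0 ≤ lam ^ (m - (n + 1)) := by unfold lam; positivity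
    have e : lam ^ (m - (n + 1)) - lam ^ (m - (n + 1)) * lam = lam ^ (m - (n + 1)) * (1 / 100) := by
      rw [show lam = 99 / 100 from rfl]; ring
    rw [e, abs_of_nonneg (by positivity)]
    linarith
  · rw [if_neg h1, if_neg (by omega)]
    norm_num

lemma VV_self (n : ℕ) : VV n n = 0 := by
  unfold VV; rw [if_neg (by omega)]

lemma VV_succ (n : ℕ) : VV n (n + 1) = 1 := by
  unfold VV; rw [if_pos le_rfl]; simp

lemma VV_lt {n m : ℕ} (h : m ≤ n) : VV n m = 0 := by
  unfold VV; rw [if_neg (by omega)]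

/-- slow inner products -/
noncomputable def ss (n m : ℕ) : ℝ := ⟪S n, S m⟫

lemma ss_nonneg (n m : ℕ) : 0 ≤ ss n m :=
  SS_nonneg (by have := sh_pos; omega) (by have := sh_pos; omega)

lemma ss_le_one (n m : ℕ) : ss n m ≤ 1 := SS_le_one _ _

lemma ss_self (n : ℕ) : ss n n = 1 := by
  unfold ss S
  rw [real_inner_self_eq_norm_sq, norm_SS]; norm_num

lemma ss_diff (n m : ℕ) : |ss n m - ss n (m + 1)| ≤ 26 * bb n := by
  have hsh := sh_pos
  have := SS_diff (n := n + sh) (m := m + sh) (by omega) (by omega)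
  unfold ss S
  rw [show m + 1 + sh = m + sh + 1 by omega]
  refine this.trans ?_
  unfold bb
  push_cast
  rw [mul_one_div, sh_cast]

lemma ss_adj (n m : ℕ) : ss n m * bb m ≤ 4 * bb n := by
  by_cases h : ss n m = 0
  · rw [h]; have := bb_pos n; simp; exact this.le
  · have hsh := sh_pos
    have h1 := SS_ne_zero (n := n + sh) (m := m + sh) (by omega) h
    push_cast at h1
    rw [sh_cast] at h1
    have h2 : bb m ≤ 4 * bb n := by
      unfold bb
      rw [mul_one_div, div_le_div_iff₀ (by positivity) (by positivity)]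
      linarith
    have h3 := ss_le_one n m
    have h4 := bb_pos m
    nlinarith

lemma ss_step (n : ℕ) : 2 * (1 - ss (n + 1) n) ≤ 10 * bb n ^ 2 := by
  have hsh := sh_pos
  have h := SS_step (n := n + sh) (by omega)
  have h1 : ‖SS (n + sh + 1) - SS (n + sh)‖ ^ 2 = 2 * (1 - ss (n + 1) n) := by
    rw [@norm_sub_sq_real, norm_SS, norm_SS]
    unfold ss S
    rw [show n + 1 + sh = n + sh + 1 by omega]
    ring
  rw [← h1]
  have hpi : Real.pi < 3.15 := Real.pi_lt_d2
  have hpi0 := Real.pi_pos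
  have h2 : Real.pi / ((n + sh : ℕ) : ℝ) ≤ 3.15 * bb n := by
    unfold bb
    rw [mul_one_div]
    push_cast
    rw [sh_cast]
    gcongr
  have h3 := pow_le_pow_left₀ (norm_nonneg _) (h.trans h2) 2
  refine h3.trans ?_
  nlinarith [sq_nonneg (bb n)]

lemma ss_comm (n m : ℕ) : ss n m = ss m n := by unfold ss; rw [real_inner_comm]

lemma S_inr (n i : ℕ) : (S n) (Sum.inr i) = 0 := SS_inr _ _

lemma inner_vv_S (n m : ℕ) : ⟪S n, vv m⟫ = 0 := by
  unfold S SS
  rw [inner_uu, vv_apply_inl, vv_apply_inl]; simp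

lemma inner_FF_kk (n m : ℕ) : ⟪FF n, kk m⟫ = ss n m - 2000 * bb n * VV n m := by
  unfold FF kk
  rw [inner_add_left, inner_sub_right, inner_sub_right, real_inner_smul_left,
    real_inner_smul_left, real_inner_smul_right, real_inner_smul_right, inner_sg_left,
    inner_sg_left, S_inr, vv_VV, inner_vv_S]
  unfold ss
  ring

lemma inner_FF_FF (n m : ℕ) :
    ⟪FF n, FF m⟫ = ss n m + if n = m then bb n ^ 2 else 0 := by
  unfold FF
  rw [inner_add_left, inner_add_right, inner_add_right, real_inner_smul_left,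
    real_inner_smul_left, real_inner_smul_right, real_inner_smul_right, inner_sg_left,
    inner_sg_left, inner_sg_right, S_inr, S_inr, sg_apply]
  unfold ss
  by_cases h : n = m
  · subst h; simp; ring
  · rw [if_neg (by simpa using fun h' => h h'.symm), if_neg h]; simp

lemma inner_FF_xx (n m : ℕ) :
    ⟪FF n, xx m⟫ = 2 * ss n m + (if n = m then bb n ^ 2 else 0) - 2000 * bb n * VV n m := by
  unfold xx
  rw [inner_add_right, inner_FF_FF, inner_FF_kk]; ring

lemma inner_FF_kk_self (n : ℕ) : ⟪FF n, kk n⟫ = 1 := by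
  rw [inner_FF_kk, ss_self, VV_self]; ring

lemma inner_FF_kk_le (n m : ℕ) : |⟪FF n, kk m⟫| ≤ 1 := by
  rw [inner_FF_kk]
  have h1 := ss_nonneg n m
  have h2 := ss_le_one n m
  have h3 := VV_nonneg n m
  have h4 := VV_le_one n m
  have h5 := bb_pos n
  have h6 := bb_le n
  have h7 : bb n * VV n m ≤ 1 / 10000 := by nlinarith
  have h8 : 0 ≤ bb n * VV n m := by positivity
  rw [abs_le]
  constructor <;> nlinarith

lemma norm_kk (n : ℕ) : ‖kk n‖ ≤ 200001 := by
  unfold kk
  refine (norm_sub_le _ _).trans ?_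
  rw [norm_smul, show ‖S n‖ = 1 from norm_SS _]
  have := norm_vv n
  norm_num
  linarith

lemma kk_inr (m i : ℕ) : (kk m) (Sum.inr i) = -2000 * (vv m) (Sum.inr i) := by
  unfold kk
  simp only [lp.coeFn_sub, lp.coeFn_smul, Pi.sub_apply, Pi.smul_apply, smul_eq_mul, S_inr]
  ring

lemma kk_inl (m i : ℕ) : (kk m) (Sum.inl i) = (S m) (Sum.inl i) := by
  unfold kk
  simp only [lp.coeFn_sub, lp.coeFn_smul, Pi.sub_apply, Pi.smul_apply, smul_eq_mul, vv_apply_inl]
  ring

lemma FF_inr (m i : ℕ) : (FF m) (Sum.inr i) = if m + 1 = i then bb m else 0 := by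
  unfold FF
  simp only [lp.coeFn_add, lp.coeFn_smul, Pi.add_apply, Pi.smul_apply, smul_eq_mul, S_inr,
    sg_apply, Sum.inr.injEq]
  split_ifs <;> ring

lemma FF_inl (m i : ℕ) : (FF m) (Sum.inl i) = (S m) (Sum.inl i) := by
  unfold FF
  simp only [lp.coeFn_add, lp.coeFn_smul, Pi.add_apply, Pi.smul_apply, smul_eq_mul, sg_apply]
  simp

lemma xx_apply (m : ℕ) (i : ℕ ⊕ ℕ) : (xx m) i = (FF m) i + (kk m) i := by
  unfold xx
  simp only [lp.coeFn_add, Pi.add_apply]

lemma pow_bound : ∃ C : ℝ, ∀ n : ℕ, (n : ℝ) ^ 2 * lam ^ n ≤ C := by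
  have h := tendsto_pow_const_mul_const_pow_of_abs_lt_one 2
    (show |lam| < 1 by unfold lam; rw [abs_of_pos] <;> norm_num)
  obtain ⟨C, hC⟩ := h.bddAbove_range
  exact ⟨C, fun n => hC ⟨n, rfl⟩⟩

lemma bb_sq_ge {n : ℕ} {K : ℝ} (h : (n : ℝ) + 10000 ≤ K) : 1 ≤ K ^ 2 * bb n ^ 2 := by
  have h0 : (0 : ℝ) < (n : ℝ) + 10000 := by positivity
  have e : ((n : ℝ) + 10000) * bb n = 1 := by unfold bb; field_simp
  have hb := bb_pos n
  have : 1 ≤ K * bb n := by rw [← e]; exact mul_le_mul_of_nonneg_right h hb.le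
  rw [← mul_pow]
  exact one_le_pow₀ this

lemma S_coord (n j : ℕ) : |(S n) (Sum.inl j)| ≤ (2 ^ (j + 1)) ^ 2 * bb n ^ 2 := by
  by_cases h : 2 ^ (j + 1) ≤ n + sh
  · unfold S
    rw [SS_coord_zero h, abs_zero]; positivity
  · have h1 : |(S n) (Sum.inl j)| ≤ 1 := by
      have := abs_real_inner_le_norm (sg (Sum.inl j)) (S n)
      rw [inner_sg_left, norm_sg, show ‖S n‖ = 1 from norm_SS _] at this
      linarith
    refine h1.trans (bb_sq_ge ?_)
    push Not at h
    have : ((n + sh : ℕ) : ℝ) ≤ ((2 ^ (j + 1) : ℕ) : ℝ) := by exact_mod_cast h.le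
    push_cast at this
    rwa [sh_cast] at this

lemma FF_coord (i : ℕ ⊕ ℕ) : ∃ M : ℝ, ∀ n, |(FF n) i| ≤ M * bb n ^ 2 := by
  rcases i with j | i
  · exact ⟨(2 ^ (j + 1)) ^ 2, fun n => by rw [FF_inl]; exact S_coord n j⟩
  · refine ⟨((i : ℝ) + 10000) ^ 2, fun n => ?_⟩
    rw [FF_inr]
    split_ifs with h
    · have hb := bb_pos n
      have hb1 := bb_le n
      rw [abs_of_pos hb]
      have : 1 ≤ ((i : ℝ) + 10000) ^ 2 * bb n ^ 2 := by
        apply bb_sq_ge
        rw [← h]; push_cast; linarith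
      linarith
    · rw [abs_zero]; positivity

lemma kk_coord (i : ℕ ⊕ ℕ) : ∃ M : ℝ, ∀ n, |(kk n) i| ≤ M * bb n ^ 2 := by
  rcases i with j | i
  · exact ⟨(2 ^ (j + 1)) ^ 2, fun n => by rw [kk_inl]; exact S_coord n j⟩
  · obtain ⟨C, hC⟩ := pow_bound
    refine ⟨2000 * (C / lam ^ (i + sh)), fun n => ?_⟩
    have hl : 0 < lam := by unfold lam; norm_num
    have hC0 : 0 ≤ C := by have := hC 0; simp at this; exact this
    rw [kk_inr, vv_apply_inr, abs_mul]
    split_ifs with h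
    · have e : ((n : ℝ) + 10000) * bb n = 1 := by unfold bb; field_simp
      have e2 : ((n : ℝ) + 10000) ^ 2 * bb n ^ 2 = 1 := by rw [← mul_pow, e]; norm_num
      have h1 := hC (n + sh)
      push_cast at h1
      rw [sh_cast] at h1
      have h2 : lam ^ (n + sh) = lam ^ (n - i) * lam ^ (i + sh) := by
        rw [← pow_add]; congr 1; omega
      rw [h2] at h1
      have h3 : lam ^ (n - i) ≤ C / lam ^ (i + sh) * bb n ^ 2 := by
        rw [div_mul_eq_mul_div, le_div_iff₀ (by positivity)]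
        calc lam ^ (n - i) * lam ^ (i + sh)
            = (((n : ℝ) + 10000) ^ 2 * (lam ^ (n - i) * lam ^ (i + sh))) * bb n ^ 2 := by
              rw [mul_comm (((n : ℝ) + 10000) ^ 2), mul_assoc, e2, mul_one]
          _ ≤ C * bb n ^ 2 := mul_le_mul_of_nonneg_right h1 (by positivity)
      rw [abs_of_nonneg (show (0:ℝ) ≤ lam ^ (n - i) by positivity)]
      norm_num
      linarith
    · rw [abs_zero, mul_zero]; positivity

lemma xx_coord (i : ℕ ⊕ ℕ) : ∃ M : ℝ, ∀ n, |(xx n) i| ≤ M * bb n ^ 2 := by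
  obtain ⟨M1, h1⟩ := FF_coord i
  obtain ⟨M2, h2⟩ := kk_coord i
  refine ⟨M1 + M2, fun n => ?_⟩
  rw [xx_apply]
  refine (abs_add_le _ _).trans ?_
  rw [add_mul]
  exact add_le_add (h1 n) (h2 n)

lemma FF_zero (n : ℕ) : (FF n) (Sum.inr 0) = 0 := by
  rw [FF_inr, if_neg (by omega)]

lemma xx_zero (n : ℕ) : (xx n) (Sum.inr 0) = 0 := by
  rw [xx_apply, FF_zero, kk_inr, vv_apply_inr, if_neg (by omega)]; ring

end Pool.Agent.Helper57_DGA
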