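import Pool.Agent.Helper57_DGA.Main

set_option linter.unusedSectionVars false

namespace Pool.Agent.Helper57_DGA

open scoped RealInnerProductSpace
open Filter Topology

lemma A_abs_le (T : HH →L[ℝ] HH) (n : ℕ) (y : HH) :
    |⟪FF n, y⟫ + ⟪T (xx n), T y⟫| ≤ NN kk T (xx n) * NN kk T y := by
  have h1 := A_le norm_kk T (inner_FF_kk_self n) (inner_FF_kk_le n) y
  have h2 := A_le norm_kk T (inner_FF_kk_self n) (inner_FF_kk_le n) (-y)
  have h3 : NN kk T (-y) = NN kk T y := by
    have := NN_smul norm_kk T (-1) y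
    rw [neg_smul, one_smul, abs_neg, abs_one, one_mul] at this
    exact this
  rw [h3, map_neg, inner_neg_right, inner_neg_right] at h2
  change _ ≤ NN kk T (xx n) * _ at h1 h2
  rw [abs_le]
  constructor
  · have : ⟪T (FF n + kk n), T y⟫ = ⟪T (xx n), T y⟫ := rfl
    linarith
  · exact h1

theorem main : ∃ (X : Type) (_ : NormedAddCommGroup X) (_ : NormedSpace ℝ X),
    Nonempty (X ≃L[ℝ] HH) ∧ StrictConvexSpace ℝ X ∧
    (∃ C : ℝ, 0 ≤ C ∧ ∀ x y : X, ‖x + y‖ ^ 2 + ‖x - y‖ ^ 2 ≤ 2 * ‖x‖ ^ 2 + C * ‖y‖ ^ 2) ∧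
    ∃ (f : ℕ → X) (A : ℕ → X →L[ℝ] ℝ), (∀ n, ‖A n‖ = 1) ∧ (∀ n, A n (f n) = ‖f n‖) ∧
      (∀ n, A (n + 1) (f n - f (n + 1)) = 0) ∧ (∀ n, 0.99 ≤ ‖f n‖) ∧
      (∀ n, 0 < A n (f n - f (n + 1))) ∧
      (∀ n m, |A n (f m - f (m + 1))| * ‖f n - f (n + 1)‖ ≤
        A n (f n - f (n + 1)) * ‖f m - f (m + 1)‖) ∧
      (∀ n, 0 < ‖f n - f (n + 1)‖) ∧ (∀ n, ‖f n - f (n + 1)‖ ≤ 4) ∧
      ∃ Z : X, Z ≠ 0 ∧ (∀ n, A n Z = 0) ∧
        Dense (Submodule.span ℝ
          {y : X | ∃ C : ℝ, ∀ n, |A n y| ≤ C * A n (f n - f (n + 1))} : Set X) := by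
  obtain ⟨T, w, hTinj, hTc, hT⟩ := exists_T xx (fun n => bb n ^ 2) (fun n => sq_nonneg _) xx_coord
  have hdef : ∀ x : HH, NN kk T x = 0 → x = 0 := by
    intro x hx
    have := norm_le_NN norm_kk T x
    rw [hx, mul_zero] at this
    exact norm_le_zero_iff.1 this
  obtain ⟨X, i1, i2, e, he⟩ := exists_renorm (NN kk T) (NN_nonneg T) (NN_smul norm_kk T)
    (NN_add_le norm_kk T) hdef
  -- bounds
  have b1 : ∀ x : X, ‖e x‖ ≤ Real.sqrt (1 + 200001 ^ 2) * ‖x‖ := fun x => by
    rw [he]; exact norm_le_NN norm_kk T (e x)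
  have b2 : ∀ y : HH, ‖e.symm y‖ ≤ Real.sqrt (1 + ‖T‖ ^ 2) * ‖y‖ := fun y => by
    rw [he, e.apply_symm_apply]; exact NN_le norm_kk T y
  let ec : X ≃L[ℝ] HH := e.toContinuousLinearEquivOfBounds _ _ b1 b2
  have hec : ∀ y, ec.symm y = e.symm y := fun y => rfl
  refine ⟨X, i1, i2, ⟨ec⟩, ?_, ?_, ?_⟩
  · refine StrictConvexSpace.of_norm_add_ne_two fun x y hx hy hxy => ?_
    rw [he] at hx hy ⊢
    rw [map_add]
    exact NN_strict norm_kk T hTinj hx hy (fun h => hxy (e.injective h))
  · refine ⟨2 * ((1 + ‖T‖ ^ 2) * (1 + 200001 ^ 2)), by positivity, fun x y => ?_⟩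
    simp only [he, map_add, map_sub]
    exact NN_smooth norm_kk T (e x) (e y)
  · -- the run
    let B : ℕ → (X →ₗ[ℝ] ℝ) := fun n =>
      { toFun := fun x => (NN kk T (xx n))⁻¹ * (⟪FF n, e x⟫ + ⟪T (xx n), T (e x)⟫)
        map_add' := fun x y => by
          simp only [map_add, inner_add_right]; ring
        map_smul' := fun c x => by
          simp only [map_smul, real_inner_smul_right, RingHom.id_apply, smul_eq_mul]; ring }
    have hB : ∀ n x, B n x = (NN kk T (xx n))⁻¹ * (⟪FF n, e x⟫ + ⟪T (xx n), T (e x)⟫) :=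
      fun n x => rfl
    have hpos : ∀ n, 0 < NN kk T (xx n) := fun n => by linarith [(NN_xx_pos T hT n).1]
    have hBle : ∀ n x, ‖B n x‖ ≤ 1 * ‖x‖ := by
      intro n x
      rw [hB, he, Real.norm_eq_abs, abs_mul, abs_inv, abs_of_pos (hpos n), one_mul,
        inv_mul_le_iff₀ (hpos n)]
      exact A_abs_le T n (e x)
    let A : ℕ → (X →L[ℝ] ℝ) := fun n => (B n).mkContinuous 1 (hBle n)
    have hA : ∀ n x, A n x = (NN kk T (xx n))⁻¹ * (⟪FF n, e x⟫ + ⟪T (xx n), T (e x)⟫) :=
      fun n x => rfl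
    let f : ℕ → X := fun n => e.symm (ff T n)
    have hef : ∀ n, e (f n) = ff T n := fun n => e.apply_symm_apply _
    have hfn : ∀ n, ‖f n‖ = rr T n * NN kk T (xx n) := fun n => by
      rw [he, hef]; exact NN_ff T hT n
    have hfpos : ∀ n, 0.99 ≤ ‖f n‖ := fun n => by
      rw [hfn]
      have h1 := (NN_xx_pos T hT n).1
      have h2 := (rr_mem T hT n).1
      nlinarith
    have hAf : ∀ n, A n (f n) = ‖f n‖ := by
      intro n
      rw [hA, hef, hfn]
      have h1 := NN_xx_sq T hT n
      unfold aa at h1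
      unfold ff
      rw [map_smul, real_inner_smul_right, real_inner_smul_right, ← mul_add, ← h1]
      have := (hpos n).ne'
      field_simp
    have hAn : ∀ n, ‖A n‖ = 1 := by
      intro n
      apply le_antisymm
      · exact LinearMap.mkContinuous_norm_le _ zero_le_one _
      · have h1 := (A n).le_opNorm (f n)
        rw [hAf, norm_norm] at h1
        have h2 : 0 < ‖f n‖ := by linarith [hfpos n]
        nlinarith
    have hAd : ∀ n m, A n (f m - f (m + 1)) = (NN kk T (xx n))⁻¹ * gg T n m := by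
      intro n m
      rw [hA, map_sub, hef, hef, FF_ff]
    have hdn : ∀ n, ‖f n - f (n + 1)‖ = NN kk T (ff T n - ff T (n + 1)) := by
      intro n
      rw [he, map_sub, hef, hef]
    have hgs : ∀ n, 0 < gg T n n := fun n => by
      have h1 := gg_self T hT n
      have h2 := bb_pos n
      linarith
    refine ⟨f, A, hAn, hAf, ?_, hfpos, ?_, ?_, ?_, ?_, ?_⟩
    · intro n
      rw [hAd, gg_orth T hT, mul_zero]
    · intro n
      rw [hAd]
      exact mul_pos (inv_pos.2 (hpos n)) (hgs n)
    · intro n m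
      rw [hAd, hAd, hdn, hdn, abs_mul, abs_of_pos (inv_pos.2 (hpos n)), mul_assoc, mul_assoc]
      exact mul_le_mul_of_nonneg_left (greedy T hT n m) (inv_pos.2 (hpos n)).le
    · intro n
      rw [hdn]
      linarith [NN_diff_ge T hT n]
    · intro n
      rw [hdn]
      exact NN_diff_le T hT n
    · refine ⟨e.symm (sg (Sum.inr 0)), ?_, ?_, ?_⟩
      · intro h
        have h1 : (sg (Sum.inr 0) : HH) = 0 := by
          have := congrArg e h
          rwa [e.apply_symm_apply, map_zero] at this
        have h2 := norm_sg (Sum.inr 0)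
        rw [h1, norm_zero] at h2
        exact zero_ne_one h2
      · intro n
        rw [hA, e.apply_symm_apply, inner_sg_right, FF_zero]
        have h1 : T (sg (Sum.inr 0)) = w (Sum.inr 0) • (sg (Sum.inr 0) : HH) := by
          ext i
          rw [hTc]
          simp only [lp.coeFn_smul, Pi.smul_apply, smul_eq_mul, sg_apply]
          by_cases hi : Sum.inr 0 = i
          · subst hi; rfl
          · rw [if_neg hi]; ring
        rw [h1, real_inner_smul_right, inner_sg_right, hTc, xx_zero]
        ring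
      · -- density
        have hmem : ∀ i : ℕ ⊕ ℕ, e.symm (sg i) ∈
            {y : X | ∃ C : ℝ, ∀ n, |A n y| ≤ C * A n (f n - f (n + 1))} := by
          intro i
          obtain ⟨M1, h1⟩ := FF_coord i
          obtain ⟨M2, h2⟩ := xx_coord i
          refine ⟨|M1| + w i ^ 2 * |M2|, fun n => ?_⟩
          have hTi : T (sg i) = w i • (sg i : HH) := by
            ext j
            rw [hTc]
            simp only [lp.coeFn_smul, Pi.smul_apply, smul_eq_mul, sg_apply]
            by_cases hi : i = j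
            · subst hi; rfl
            · rw [if_neg hi]; ring
          rw [hAd, hA, e.apply_symm_apply, inner_sg_right, hTi, real_inner_smul_right,
            inner_sg_right, hTc, abs_mul, abs_of_pos (inv_pos.2 (hpos n))]
          have hb := bb_pos n
          have hb1 := bb_le n
          have hg := gg_self T hT n
          have hb2 : bb n ^ 2 ≤ gg T n n := by nlinarith
          have h3 : |(FF n) i + w i * (w i * (xx n) i)| ≤
              (|M1| + w i ^ 2 * |M2|) * bb n ^ 2 := by
            refine (abs_add_le _ _).trans ?_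
            have h4 : |w i * (w i * (xx n) i)| = w i ^ 2 * |(xx n) i| := by
              rw [← mul_assoc, abs_mul, ← sq, abs_of_nonneg (sq_nonneg _)]
            rw [h4]
            have h5 := h1 n
            have h6 := h2 n
            have h7 : M1 * bb n ^ 2 ≤ |M1| * bb n ^ 2 :=
              mul_le_mul_of_nonneg_right (le_abs_self _) (sq_nonneg _)
            have h8 : M2 * bb n ^ 2 ≤ |M2| * bb n ^ 2 :=
              mul_le_mul_of_nonneg_right (le_abs_self _) (sq_nonneg _)
            have h9 : w i ^ 2 * |(xx n) i| ≤ w i ^ 2 * (|M2| * bb n ^ 2) :=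
              mul_le_mul_of_nonneg_left (h6.trans h8) (sq_nonneg _)
            linarith
          calc (NN kk T (xx n))⁻¹ * |(FF n) i + w i * (w i * (xx n) i)|
              ≤ (NN kk T (xx n))⁻¹ * ((|M1| + w i ^ 2 * |M2|) * gg T n n) := by
                refine mul_le_mul_of_nonneg_left (h3.trans ?_) (inv_pos.2 (hpos n)).le
                exact mul_le_mul_of_nonneg_left hb2 (by positivity)
            _ = (|M1| + w i ^ 2 * |M2|) * ((NN kk T (xx n))⁻¹ * gg T n n) := by ring
        intro x
        have hs := lp.hasSum_single (p := 2) (by norm_num) (e x)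
        have hs2 := hs.mapL (ec.symm : HH →L[ℝ] X)
        have hx : ec.symm (e x) = x := ec.symm_apply_apply x
        have hs3 : HasSum (fun i => ec.symm (lp.single 2 i ((e x) i))) x := by
          have h5 : HasSum (fun i => ec.symm (lp.single 2 i ((e x) i))) (ec.symm (e x)) := hs2
          rwa [hx] at h5
        refine mem_closure_of_tendsto hs3 (Eventually.of_forall fun s => ?_)
        refine Submodule.sum_mem _ fun i _ => ?_
        have h4 : (lp.single 2 i ((e x) i) : HH) = (e x) i • sg i := by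
          unfold sg
          rw [← lp.single_smul]
          simp
        rw [h4, map_smul]
        exact Submodule.smul_mem _ _ (Submodule.subset_span (hmem i))

end Pool.Agent.Helper57_DGA
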