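import Pool.Agent.Helper57_DGA.Slow

set_option linter.unusedSectionVars false

namespace Pool.Agent.Helper57_DGA

open scoped RealInnerProductSpace
open Filter Topology

/-- discount factor -/
noncomputable def lam : ℝ := 99 / 100

/-- fresh vectors -/
noncomputable def vv : ℕ → HH
  | 0 => 0
  | n + 1 => lam • vv n + sg (Sum.inr (n + 1))

lemma vv_apply_inl (n j : ℕ) : (vv n) (Sum.inl j) = 0 := by
  induction n with
  | zero => simp [vv]
  | succ n ih =>
    simp only [vv, lp.coeFn_add, lp.coeFn_smul, Pi.add_apply, Pi.smul_apply, sg_apply, ih]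
    simp

lemma vv_apply_inr (n i : ℕ) :
    (vv n) (Sum.inr i) = if 1 ≤ i ∧ i ≤ n then lam ^ (n - i) else 0 := by
  induction n with
  | zero =>
    rw [if_neg (by omega)]
    simp [vv]
  | succ n ih =>
    simp only [vv, lp.coeFn_add, lp.coeFn_smul, Pi.add_apply, Pi.smul_apply, sg_apply, ih,
      smul_eq_mul, Sum.inr.injEq]
    by_cases h1 : n + 1 = i
    · subst h1
      rw [if_neg (by omega), if_pos rfl, if_pos (by omega)]
      simp
    · by_cases h2 : 1 ≤ i ∧ i ≤ n
      · rw [if_pos h2, if_neg h1, if_pos (by omega)]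
        rw [show n + 1 - i = (n - i) + 1 by omega, pow_succ]
        ring
      · rw [if_neg h2, if_neg h1, if_neg (by omega)]
        simp

lemma norm_vv (n : ℕ) : ‖vv n‖ ≤ 100 := by
  induction n with
  | zero => simp [vv]
  | succ n ih =>
    simp only [vv]
    refine (norm_add_le _ _).trans ?_
    rw [norm_smul, norm_sg, Real.norm_eq_abs, lam]
    rw [abs_of_pos (by norm_num)]
    linarith

/-- Existence of an injective diagonal operator which is tiny along a given sequence. -/
theorem exists_T (x : ℕ → HH) (ε : ℕ → ℝ) (hε : ∀ n, 0 ≤ ε n)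
    (h : ∀ i, ∃ M : ℝ, ∀ n, |x n i| ≤ M * ε n) :
    ∃ (T : HH →L[ℝ] HH) (w : ℕ ⊕ ℕ → ℝ), Function.Injective T ∧
      (∀ y i, (T y) i = w i * y i) ∧ ∀ n, ‖T (x n)‖ ≤ ε n := by
  obtain ⟨c, hc0, s, hs, hs1⟩ := posSumOfEncodable (show (0:ℝ) < 1 by norm_num) (ℕ ⊕ ℕ)
  choose M hM using h
  set w : ℕ ⊕ ℕ → ℝ := fun i => c i / (1 + |M i|) with hw
  have hw0 : ∀ i, 0 < w i := fun i => div_pos (hc0 i) (by positivity)
  have hwc : ∀ i, w i ≤ c i := fun i => by
    rw [hw]
    exact div_le_self (hc0 i).le (by linarith [abs_nonneg (M i)])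
  have hcs : Summable c := hs.summable
  set t : ℕ ⊕ ℕ → (HH →L[ℝ] HH) := fun i =>
    w i • (innerSL ℝ (sg i)).smulRight (sg i) with ht
  have htn : ∀ i, ‖t i‖ ≤ c i := by
    intro i
    rw [ht]
    simp only
    rw [norm_smul, ContinuousLinearMap.norm_smulRight_apply, innerSL_apply_norm, norm_sg,
      Real.norm_eq_abs, abs_of_pos (hw0 i)]
    linarith [hwc i]
  have hts : Summable t := Summable.of_norm_bounded hcs htn
  have happly : ∀ y : HH, HasSum (fun i => (w i * y i) • (sg i : HH)) ((∑' i, t i) y) := by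
    intro y
    have h1 := hts.hasSum.mapL (ContinuousLinearMap.apply ℝ HH y)
    have h2 : (fun i => (w i * y i) • (sg i : HH)) =
        fun b => ((ContinuousLinearMap.apply ℝ HH) y) (t b) := by
      ext1 i
      simp only [ht, ContinuousLinearMap.apply_apply, _root_.smul_apply,
        ContinuousLinearMap.smulRight_apply, innerSL_apply_apply, inner_sg_left, smul_smul]
    rw [h2]
    exact h1
  have hcoord : ∀ y i, ((∑' i, t i) y : HH) i = w i * y i := by
    intro y i
    have h1 := (happly y).mapL (innerSL ℝ (sg i))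
    have h2 : ∀ j, (innerSL ℝ (sg i)) ((w j * y j) • (sg j : HH)) =
        if j = i then w i * y i else 0 := by
      intro j
      simp only [map_smul, innerSL_apply_apply, inner_sg_left, sg_apply, smul_eq_mul]
      split_ifs with hji
      · subst hji; ring
      · ring
    simp only [h2] at h1
    have h3 := h1.unique (hasSum_ite_eq i (w i * y i))
    rw [innerSL_apply_apply, inner_sg_left] at h3
    exact h3
  refine ⟨∑' i, t i, w, ?_, hcoord, ?_⟩
  · intro y z hyz
    ext i
    have h1 := hcoord y i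
    have h2 := hcoord z i
    rw [hyz, h2] at h1
    exact (mul_left_cancel₀ (hw0 i).ne' h1).symm
  · intro n
    have h1 := happly (x n)
    rw [← h1.tsum_eq]
    have hb : ∀ i, ‖(w i * x n i) • (sg i : HH)‖ ≤ c i * ε n := by
      intro i
      rw [norm_smul, norm_sg, mul_one, Real.norm_eq_abs, abs_mul, abs_of_pos (hw0 i)]
      have h2 := hM i n
      have h3 : |x n i| ≤ (1 + |M i|) * ε n := by
        refine h2.trans (mul_le_mul_of_nonneg_right ?_ (hε n))
        linarith [le_abs_self (M i)]
      calc w i * |x n i| ≤ w i * ((1 + |M i|) * ε n) :=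
            mul_le_mul_of_nonneg_left h3 (hw0 i).le
        _ = c i * ε n := by rw [hw]; field_simp
    have h4 := tsum_of_norm_bounded (hs.mul_right (ε n)) hb
    refine h4.trans ?_
    have := hε n
    nlinarith

end Pool.Agent.Helper57_DGA
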