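import Pool.Agent.Helper57_DGA.Norm

set_option linter.unusedSectionVars false

namespace Pool.Agent.Helper57_DGA

open scoped RealInnerProductSpace
open Filter Topology

variable {H : Type} [NormedAddCommGroup H] [InnerProductSpace ℝ H]
variable {k : ℕ → H} {R : ℝ} (hk : ∀ n, ‖k n‖ ≤ R) (T : H →L[ℝ] H)

include hk

lemma NN_smooth (x y : H) :
    NN k T (x + y) ^ 2 + NN k T (x - y) ^ 2
      ≤ 2 * NN k T x ^ 2 + 2 * ((1 + ‖T‖ ^ 2) * (1 + R ^ 2)) * NN k T y ^ 2 := by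
  rw [NN_sq, NN_sq, NN_sq T x]
  have h1 := N1_smooth hk x y
  have h2 := parallelogram_law_with_norm ℝ (T x) (T y)
  rw [← map_add, ← map_sub] at h2
  have h3 := pow_le_pow_left₀ (norm_nonneg _) (T.le_opNorm y) 2
  have h4 := pow_le_pow_left₀ (norm_nonneg _) (norm_le_NN hk T y) 2
  rw [mul_pow, Real.sq_sqrt (by positivity)] at h4
  have h5 : ‖y‖ ^ 2 + ‖T y‖ ^ 2 ≤ (1 + ‖T‖ ^ 2) * ((1 + R ^ 2) * NN k T y ^ 2) := by
    have : ‖y‖ ^ 2 + ‖T y‖ ^ 2 ≤ (1 + ‖T‖ ^ 2) * ‖y‖ ^ 2 := by nlinarith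
    exact this.trans (mul_le_mul_of_nonneg_left h4 (by positivity))
  nlinarith

lemma N1_add_sq_le (x y : H) : N1 k (x + y) ^ 2 ≤ 2 * N1 k x ^ 2 + 2 * N1 k y ^ 2 := by
  have h3 := pow_le_pow_left₀ (N1_nonneg hk (x + y)) (N1_add_le hk x y) 2
  nlinarith [sq_nonneg (N1 k x - N1 k y)]

lemma NN_strict (hT : Function.Injective T) {x y : H} (hx : NN k T x = 1) (hy : NN k T y = 1)
    (hxy : x ≠ y) : NN k T (x + y) ≠ 2 := by
  intro h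
  have h0 : NN k T (x + y) ^ 2 = 4 := by rw [h]; norm_num
  have hx2 : NN k T x ^ 2 = 1 := by rw [hx]; norm_num
  have hy2 : NN k T y ^ 2 = 1 := by rw [hy]; norm_num
  rw [NN_sq] at h0 hx2 hy2
  have h1 := N1_add_sq_le hk x y
  have h2 := parallelogram_law_with_norm ℝ (T x) (T y)
  rw [← map_add, ← map_sub] at h2
  have h3 : ‖T (x - y)‖ = 0 := by
    have : ‖T (x - y)‖ ^ 2 ≤ 0 := by nlinarith
    nlinarith [norm_nonneg (T (x - y))]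
  rw [norm_eq_zero, ← map_zero T] at h3
  exact hxy (sub_eq_zero.1 (hT h3))

/-- If `F` norms `k n` then the value of `N1` at `F + k n`. -/
lemma N1_sq_eq {F : H} {n : ℕ} (h1 : ⟪F, k n⟫ = 1) (h2 : ∀ m, |⟪F, k m⟫| ≤ 1) :
    N1 k (F + k n) ^ 2 = ⟪F, F + k n⟫ ∧ Qk k F = ⟪F, F + k n⟫ := by
  have hpk : pk k F = 1 := by
    apply le_antisymm (ciSup_le h2)
    have := le_pk hk F n
    rwa [h1, abs_one] at this
  have hQ : Qk k F = ⟪F, F + k n⟫ := by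
    unfold Qk
    rw [inner_add_right, real_inner_self_eq_norm_sq, h1, hpk]
    norm_num
  refine ⟨?_, hQ⟩
  have hQv : Qk k F = ‖F‖ ^ 2 + 1 := by unfold Qk; rw [hpk]; norm_num
  have hQpos : 0 < Qk k F := by rw [hQv]; positivity
  have hle : N1 k (F + k n) ≤ Real.sqrt (Qk k F) := by
    have := N1_nonempty hk
    refine ciSup_le fun G => ?_
    have hG := G.2
    have g1 : ⟪G.1, F + k n⟫ ≤ ‖G.1‖ * ‖F‖ + pk k G.1 * 1 := by
      rw [inner_add_right, mul_one]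
      exact add_le_add (real_inner_le_norm _ _) ((le_abs_self _).trans (le_pk hk G.1 n))
    refine g1.trans (Real.le_sqrt_of_sq_le ?_)
    rw [hQv]
    have g2 : ‖G.1‖ ^ 2 + pk k G.1 ^ 2 ≤ 1 := hG
    have g3 : (‖G.1‖ * ‖F‖ + pk k G.1 * 1) ^ 2 ≤
        (‖G.1‖ ^ 2 + pk k G.1 ^ 2) * (‖F‖ ^ 2 + 1) := by
      nlinarith [sq_nonneg (‖G.1‖ * 1 - pk k G.1 * ‖F‖)]
    refine g3.trans ?_
    have : (0:ℝ) ≤ ‖F‖ ^ 2 + 1 := by positivity
    nlinarith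
  have hge := inner_le_N1 hk F (F + k n)
  rw [← hQ] at hge ⊢
  have hs : 0 < Real.sqrt (Qk k F) := Real.sqrt_pos.2 hQpos
  have hsq : Real.sqrt (Qk k F) ^ 2 = Qk k F := Real.sq_sqrt hQpos.le
  have hge2 : Real.sqrt (Qk k F) ≤ N1 k (F + k n) := by
    have : Real.sqrt (Qk k F) * Real.sqrt (Qk k F) ≤ Real.sqrt (Qk k F) * N1 k (F + k n) := by
      nlinarith
    exact le_of_mul_le_mul_left this hs
  have := le_antisymm hle hge2
  rw [this, hsq]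

/-- the functional `A y = ⟪F, y⟫ + ⟪T x, T y⟫` is bounded by `NN x * NN y`. -/
lemma A_le {F : H} {n : ℕ} (h1 : ⟪F, k n⟫ = 1) (h2 : ∀ m, |⟪F, k m⟫| ≤ 1) (y : H) :
    ⟪F, y⟫ + ⟪T (F + k n), T y⟫ ≤ NN k T (F + k n) * NN k T y := by
  obtain ⟨e1, e2⟩ := N1_sq_eq hk h1 h2
  have h3 := inner_le_N1 hk F y
  rw [e2, ← e1, Real.sqrt_sq (N1_nonneg hk _)] at h3
  have h4 := real_inner_le_norm (T (F + k n)) (T y)
  refine (add_le_add h3 h4).trans ?_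
  refine le_of_sq_le_sq ?_ (mul_nonneg (NN_nonneg T _) (NN_nonneg T _))
  rw [mul_pow, NN_sq, NN_sq]
  nlinarith [sq_nonneg (N1 k (F + k n) * ‖T y‖ - ‖T (F + k n)‖ * N1 k y)]

lemma A_self {F : H} {n : ℕ} (h1 : ⟪F, k n⟫ = 1) (h2 : ∀ m, |⟪F, k m⟫| ≤ 1) :
    ⟪F, F + k n⟫ + ⟪T (F + k n), T (F + k n)⟫ = NN k T (F + k n) ^ 2 := by
  obtain ⟨e1, e2⟩ := N1_sq_eq hk h1 h2
  rw [NN_sq, e1, real_inner_self_eq_norm_sq]

end Pool.Agent.Helper57_DGA
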