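import Mathlib

set_option linter.unusedSectionVars false

namespace Pool.Agent.Helper57_DGA

open Filter Topology

/-- Abstract renorming of a real vector space. -/
theorem exists_renorm {H : Type} [AddCommGroup H] [Module ℝ H] (N : H → ℝ)
    (h0 : ∀ x, 0 ≤ N x) (h1 : ∀ (c : ℝ) x, N (c • x) = |c| * N x)
    (h2 : ∀ x y, N (x + y) ≤ N x + N y) (h3 : ∀ x, N x = 0 → x = 0) :
    ∃ (X : Type) (_ : NormedAddCommGroup X) (_ : NormedSpace ℝ X) (e : X ≃ₗ[ℝ] H),
      ∀ x, ‖x‖ = N (e x) := by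
  let iN : Norm H := ⟨N⟩
  have core : NormedSpace.Core ℝ H :=
    { norm_nonneg := h0
      norm_smul := fun c x => by rw [Real.norm_eq_abs]; exact h1 c x
      norm_triangle := h2
      norm_eq_zero_iff := fun x => ⟨h3 x, fun hx => by
        subst hx
        have := h1 0 (0 : H)
        rw [zero_smul, abs_zero, zero_mul] at this
        exact this⟩ }
  let i1 : NormedAddCommGroup H := NormedAddCommGroup.ofCore core
  let i2 : NormedSpace ℝ H := NormedSpace.ofCore core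
  exact ⟨H, i1, i2, LinearEquiv.refl ℝ H, fun x => rfl⟩

section run

variable {X : Type} [NormedAddCommGroup X] [NormedSpace ℝ X]

/-- The maximal norm-one dictionary for which `φ` is a greedy choice. -/
def maxDict (A : ℕ → X →L[ℝ] ℝ) (φ : ℕ → X) : Set X :=
  {g | ‖g‖ = 1 ∧ ∀ n, |A n g| ≤ A n (φ n)}

lemma maxDict_neg {A : ℕ → X →L[ℝ] ℝ} {φ : ℕ → X} {g : X} (hg : g ∈ maxDict A φ) :
    -g ∈ maxDict A φ :=
  ⟨by rw [norm_neg]; exact hg.1, fun n => by rw [map_neg, abs_neg]; exact hg.2 n⟩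

lemma maxDict_span {A : ℕ → X →L[ℝ] ℝ} {φ : ℕ → X} (hφ : ∀ n, 0 ≤ A n (φ n))
    {Z : X} (hZ : Z ≠ 0) (hAZ : ∀ n, A n Z = 0) {y : X} {C : ℝ}
    (hy : ∀ n, |A n y| ≤ C * A n (φ n)) :
    y ∈ Submodule.span ℝ (maxDict A φ) := by
  have hZ0 : 0 < ‖Z‖ := norm_pos_iff.2 hZ
  -- enlarge C
  set C' := |C| + ‖y‖ + 1 with hC'
  have hC'0 : 0 < C' := by positivity
  have hy' : ∀ n, |A n y| ≤ C' * A n (φ n) := by
    intro n
    refine (hy n).trans (mul_le_mul_of_nonneg_right ?_ (hφ n))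
    have := le_abs_self C
    have := norm_nonneg y
    linarith
  set τ := ‖Z‖ / (2 * C') with hτ
  have hτ0 : 0 < τ := by positivity
  have hτC : τ * C' = ‖Z‖ / 2 := by rw [hτ]; field_simp
  have hτy : τ * ‖y‖ ≤ ‖Z‖ / 2 := by
    rw [← hτC]
    refine mul_le_mul_of_nonneg_left ?_ hτ0.le
    have := abs_nonneg C
    linarith
  have key : ∀ s : ℝ, |s| = τ → Z + s • y ∈ Submodule.span ℝ (maxDict A φ) := by
    intro s hs
    have hn : ‖Z‖ / 2 ≤ ‖Z + s • y‖ := by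
      have h1 : ‖Z‖ ≤ ‖Z + s • y‖ + ‖s • y‖ := by
        calc ‖Z‖ = ‖(Z + s • y) - s • y‖ := by congr 1; abel
          _ ≤ _ := norm_sub_le _ _
      rw [norm_smul, Real.norm_eq_abs, hs] at h1
      linarith
    have hn0 : 0 < ‖Z + s • y‖ := lt_of_lt_of_le (by positivity) hn
    have hmem : (‖Z + s • y‖)⁻¹ • (Z + s • y) ∈ maxDict A φ := by
      refine ⟨?_, fun n => ?_⟩
      · rw [norm_smul, norm_inv, norm_norm, inv_mul_cancel₀ hn0.ne']
      · rw [map_smul, map_add, hAZ, zero_add, map_smul, smul_eq_mul, smul_eq_mul, abs_mul,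
          abs_mul, hs, abs_inv, abs_of_pos hn0]
        rw [inv_mul_le_iff₀ hn0]
        calc τ * |A n y| ≤ τ * (C' * A n (φ n)) := mul_le_mul_of_nonneg_left (hy' n) hτ0.le
          _ = (‖Z‖ / 2) * A n (φ n) := by rw [← mul_assoc, hτC]
          _ ≤ ‖Z + s • y‖ * A n (φ n) := mul_le_mul_of_nonneg_right hn (hφ n)
    have := Submodule.smul_mem _ ‖Z + s • y‖ (Submodule.subset_span hmem)
    rwa [smul_smul, mul_inv_cancel₀ hn0.ne', one_smul] at this
  have k1 := key τ (abs_of_pos hτ0)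
  have k2 := key (-τ) (by rw [abs_neg, abs_of_pos hτ0])
  have k3 := Submodule.smul_mem _ (2 * τ)⁻¹ (Submodule.sub_mem _ k1 k2)
  have e : (2 * τ)⁻¹ • ((Z + τ • y) - (Z + (-τ) • y)) = y := by
    have : (Z + τ • y) - (Z + (-τ) • y) = (2 * τ) • y := by
      rw [neg_smul, two_mul, add_smul]; abel
    rw [this, smul_smul, inv_mul_cancel₀ (by positivity), one_smul]
  rwa [e] at k3

/-- The best approximation property. -/
lemma best_approx {A : X →L[ℝ] ℝ} {f g φ : X} {a : ℝ} (hA : ‖A‖ = 1) (hg : A g = ‖g‖)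
    (hφ : A φ = 0) (hfg : g = f - a • φ) (b : ℝ) : ‖f - a • φ‖ ≤ ‖f - b • φ‖ := by
  have h1 : A (f - b • φ) = ‖g‖ := by
    rw [← hg, hfg]
    simp [hφ]
  have h2 := A.le_opNorm (f - b • φ)
  rw [hA, one_mul, h1, Real.norm_eq_abs, abs_of_nonneg (norm_nonneg g)] at h2
  rwa [← hfg]

/-- Uniqueness of norming functionals from the smoothness inequality. -/
lemma norming_unique {C : ℝ}
    (hC : ∀ x y : X, ‖x + y‖ ^ 2 + ‖x - y‖ ^ 2 ≤ 2 * ‖x‖ ^ 2 + C * ‖y‖ ^ 2)
    {x : X} (hx : x ≠ 0) {F G : X →L[ℝ] ℝ} (hF : ‖F‖ = 1) (hFx : F x = ‖x‖)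
    (hG : ‖G‖ = 1) (hGx : G x = ‖x‖) : F = G := by
  have hx0 : 0 < ‖x‖ := norm_pos_iff.2 hx
  have key : ∀ y : X, F y - G y ≤ 0 := by
    intro y
    by_contra hcon
    push Not at hcon
    set d := F y - G y with hd
    have h1 : ∀ s : ℝ, 0 < s → 2 * (2 * ‖x‖) * d ≤ 2 * C * ‖y‖ ^ 2 * s := by
      intro s hs
      have e1 : F (x + s • y) ≤ ‖x + s • y‖ := by
        have := (le_abs_self _).trans (F.le_opNorm (x + s • y))
        rwa [hF, one_mul] at this
      have e2 : G (x - s • y) ≤ ‖x - s • y‖ := by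
        have := (le_abs_self _).trans (G.le_opNorm (x - s • y))
        rwa [hG, one_mul] at this
      rw [map_add, map_smul, hFx, smul_eq_mul] at e1
      rw [map_sub, map_smul, hGx, smul_eq_mul] at e2
      have e3 := hC x (s • y)
      rw [norm_smul, mul_pow, Real.norm_eq_abs, sq_abs] at e3
      have e4 : 2 * ‖x‖ + s * d ≤ ‖x + s • y‖ + ‖x - s • y‖ := by rw [hd]; linarith
      have e5 : (2 * ‖x‖ + s * d) ^ 2 ≤ 2 * (‖x + s • y‖ ^ 2 + ‖x - s • y‖ ^ 2) := by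
        have := pow_le_pow_left₀ (by positivity) e4 2
        nlinarith [sq_nonneg (‖x + s • y‖ - ‖x - s • y‖)]
      have e6 : s * (2 * (2 * ‖x‖) * d) ≤ s * (2 * C * ‖y‖ ^ 2 * s) := by
        nlinarith [mul_pos hs hcon, sq_nonneg (s * d)]
      exact le_of_mul_le_mul_left e6 hs
    have hpos : 0 < 2 * (2 * ‖x‖) * d := by positivity
    rcases le_or_gt (2 * C * ‖y‖ ^ 2) 0 with h0 | h0
    · have := h1 1 one_pos
      linarith
    · set K := 2 * C * ‖y‖ ^ 2 with hK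
      have := h1 (2 * (2 * ‖x‖) * d / (2 * K)) (by positivity)
      have e : K * (2 * (2 * ‖x‖) * d / (2 * K)) = 2 * (2 * ‖x‖) * d / 2 := by
        field_simp
      rw [e] at this
      linarith
  ext y
  have h1 := key y
  have h2 := key (-y)
  simp only [map_neg] at h2
  linarith

end run

end Pool.Agent.Helper57_DGA
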