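import Pool.Agent.Helper57_DGA.Est
import Pool.Agent.Helper57_DGA.Norm2
import Pool.Agent.Helper57_DGA.Run

set_option linter.unusedSectionVars false

namespace Pool.Agent.Helper57_DGA

open scoped RealInnerProductSpace
open Filter Topology

section est
variable (T : HH →L[ℝ] HH) (hT : ∀ n, ‖T (xx n)‖ ≤ bb n ^ 2)

/-- value of the `n`-th functional at the `m`-th point -/
noncomputable def aa (n m : ℕ) : ℝ := ⟪FF n, xx m⟫ + ⟪T (xx n), T (xx m)⟫

/-- radii -/
noncomputable def rr : ℕ → ℝ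
  | 0 => 1
  | n + 1 => rr n * (aa T (n + 1) n / aa T (n + 1) (n + 1))

/-- `gg n m` is the value of functional `n` on the step `f m - f (m+1)` -/
noncomputable def gg (n m : ℕ) : ℝ := rr T m * aa T n m - rr T (m + 1) * aa T n (m + 1)

include hT

lemma TT_le (n m : ℕ) : |⟪T (xx n), T (xx m)⟫| ≤ bb n ^ 2 * bb m ^ 2 := by
  refine (abs_real_inner_le_norm _ _).trans ?_
  exact mul_le_mul (hT n) (hT m) (norm_nonneg _) (by positivity)

lemma TT_le' (n m : ℕ) : |⟪T (xx n), T (xx m)⟫| ≤ bb n ^ 2 / 100000000 := by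
  refine (TT_le T hT n m).trans ?_
  have h1 := bb_pos m
  have h2 := bb_le m
  have : bb m ^ 2 ≤ 1 / 100000000 := by nlinarith
  have := mul_le_mul_of_nonneg_left this (sq_nonneg (bb n))
  linarith

lemma aa_self (n : ℕ) : 2 ≤ aa T n n ∧ aa T n n ≤ 3 := by
  unfold aa
  rw [inner_FF_xx, ss_self, VV_self, if_pos rfl, real_inner_self_eq_norm_sq]
  have h1 := TT_le' T hT n n
  rw [real_inner_self_eq_norm_sq, abs_of_nonneg (by positivity)] at h1
  have h2 := bb_pos n
  have h3 := bb_le n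
  constructor
  · nlinarith [sq_nonneg ‖T (xx n)‖]
  · nlinarith

lemma aa_step (n : ℕ) : |aa T (n + 1) (n + 1) - aa T (n + 1) n| ≤ 12 * bb n ^ 2 := by
  unfold aa
  rw [inner_FF_xx, inner_FF_xx, ss_self, VV_self, VV_lt (by omega), if_pos rfl,
    if_neg (by omega)]
  have h1 := abs_le.1 (TT_le' T hT (n + 1) (n + 1))
  have h2 := abs_le.1 (TT_le' T hT (n + 1) n)
  have h3 := ss_step n
  have h4 := ss_le_one (n + 1) n
  have h5 := bb_pos (n + 1)
  have h6 := bb_succ_le n
  have h7 : bb (n + 1) ^ 2 ≤ bb n ^ 2 := pow_le_pow_left₀ h5.le h6 2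
  have h8 := sq_nonneg (bb (n + 1))
  rw [abs_le]
  constructor <;> linarith [h1.1, h1.2, h2.1, h2.2]

lemma rr_bound (n : ℕ) : |rr T n - 1| ≤ 12 * (1 / 9999 - 1 / ((n : ℝ) + 9999)) := by
  induction n with
  | zero => simp [rr]
  | succ n ih =>
    have h1 := aa_self T hT (n + 1)
    have h2 := aa_step T hT n
    have h0 : (0 : ℝ) < 1 / ((n : ℝ) + 9999) := by positivity
    have hr : |rr T n - 1| ≤ 1 := ih.trans (by linarith)
    have hr2 := abs_le.1 hr
    have h3 : |rr T (n + 1) - rr T n| ≤ 12 * bb n ^ 2 := by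
      have e : rr T (n + 1) - rr T n =
          rr T n * ((aa T (n + 1) n - aa T (n + 1) (n + 1)) / aa T (n + 1) (n + 1)) := by
        have : aa T (n + 1) (n + 1) ≠ 0 := by linarith [h1.1]
        simp only [rr]
        field_simp
        try ring
      rw [e, abs_mul, abs_div, abs_of_pos (show 0 < aa T (n + 1) (n + 1) by linarith [h1.1]),
        abs_sub_comm, mul_div_assoc', div_le_iff₀ (by linarith [h1.1])]
      have h4 : |rr T n| ≤ 2 := abs_le.2 ⟨by linarith [hr2.1], by linarith [hr2.2]⟩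
      have h5 : |rr T n| * |aa T (n + 1) (n + 1) - aa T (n + 1) n| ≤ 2 * (12 * bb n ^ 2) :=
        mul_le_mul h4 h2 (abs_nonneg _) (by norm_num)
      have h6 : 0 ≤ bb n ^ 2 := sq_nonneg _
      nlinarith [h1.1]
    have h4 : bb n ^ 2 ≤ 1 / ((n : ℝ) + 9999) - 1 / (((n + 1 : ℕ) : ℝ) + 9999) := by
      unfold bb
      push_cast
      have e : 1 / ((n : ℝ) + 9999) - 1 / ((n : ℝ) + 1 + 9999) =
          1 / (((n : ℝ) + 9999) * ((n : ℝ) + 10000)) := by
        have : (n : ℝ) + 9999 ≠ 0 := by positivity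
        have : (n : ℝ) + 10000 ≠ 0 := by positivity
        have : (n : ℝ) + 1 + 9999 ≠ 0 := by positivity
        field_simp
        ring
      rw [e, div_pow, one_pow]
      apply one_div_le_one_div_of_le (by positivity)
      nlinarith [(Nat.cast_nonneg n : (0:ℝ) ≤ n)]
    calc |rr T (n + 1) - 1| = |(rr T (n + 1) - rr T n) + (rr T n - 1)| := by congr 1; ring
      _ ≤ |rr T (n + 1) - rr T n| + |rr T n - 1| := abs_add_le _ _
      _ ≤ 12 * (1 / 9999 - 1 / (((n + 1 : ℕ) : ℝ) + 9999)) := by linarith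

lemma rr_mem (n : ℕ) : 0.99 ≤ rr T n ∧ rr T n ≤ 1.01 := by
  have h := rr_bound T hT n
  have h0 : (0 : ℝ) < 1 / ((n : ℝ) + 9999) := by positivity
  have h2' : (12 : ℝ) * (1 / 9999) ≤ 0.01 := by norm_num
  have h2 : |rr T n - 1| ≤ 0.01 := by linarith
  have h3 := abs_le.1 h2
  constructor <;> linarith [h3.1, h3.2]

lemma rr_pos (n : ℕ) : 0 < rr T n := by linarith [(rr_mem T hT n).1]

lemma rr_step (n : ℕ) : |rr T n - rr T (n + 1)| ≤ 12 * bb n ^ 2 := by
  have h1 := aa_self T hT (n + 1)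
  have h2 := aa_step T hT n
  have hr2 := rr_mem T hT n
  have e : rr T (n + 1) - rr T n =
      rr T n * ((aa T (n + 1) n - aa T (n + 1) (n + 1)) / aa T (n + 1) (n + 1)) := by
    have : aa T (n + 1) (n + 1) ≠ 0 := by linarith [h1.1]
    simp only [rr]
    field_simp
    try ring
  rw [abs_sub_comm, e, abs_mul, abs_div, abs_of_pos (show 0 < aa T (n + 1) (n + 1) by linarith [h1.1]),
    abs_sub_comm, mul_div_assoc', div_le_iff₀ (by linarith [h1.1])]
  have h4 : |rr T n| ≤ 2 := abs_le.2 ⟨by linarith [hr2.1], by linarith [hr2.2]⟩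
  have h5 : |rr T n| * |aa T (n + 1) (n + 1) - aa T (n + 1) n| ≤ 2 * (12 * bb n ^ 2) :=
    mul_le_mul h4 h2 (abs_nonneg _) (by norm_num)
  have h6 : 0 ≤ bb n ^ 2 := sq_nonneg _
  nlinarith [h1.1]

lemma gg_orth (n : ℕ) : gg T (n + 1) n = 0 := by
  have h1 := aa_self T hT (n + 1)
  have : aa T (n + 1) (n + 1) ≠ 0 := by linarith [h1.1]
  unfold gg
  simp only [rr]
  field_simp
  ring

lemma gg_self (n : ℕ) : 1900 * bb n ≤ gg T n n := by
  have hr := rr_mem T hT n
  have hr' := rr_mem T hT (n + 1)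
  have hs := abs_le.1 (rr_step T hT n)
  have ha := aa_self T hT n
  have hb := bb_pos n
  have hb1 := bb_le n
  have e : gg T n n = (rr T n - rr T (n + 1)) * aa T n n
      + rr T (n + 1) * (aa T n n - aa T n (n + 1)) := by unfold gg; ring
  have h1 : 1999 * bb n ≤ aa T n n - aa T n (n + 1) := by
    unfold aa
    rw [inner_FF_xx, inner_FF_xx, ss_self, VV_self, VV_succ, if_pos rfl, if_neg (by omega)]
    have h1 := abs_le.1 (TT_le' T hT n n)
    have h2 := abs_le.1 (TT_le' T hT n (n + 1))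
    have h3 := ss_le_one n (n + 1)
    nlinarith [h1.1, h1.2, h2.1, h2.2]
  have h2 : -(36 * bb n ^ 2) ≤ (rr T n - rr T (n + 1)) * aa T n n := by
    have : -(12 * bb n ^ 2) * aa T n n ≤ (rr T n - rr T (n + 1)) * aa T n n :=
      mul_le_mul_of_nonneg_right hs.1 (by linarith)
    have h6 : 0 ≤ bb n ^ 2 := sq_nonneg _
    nlinarith
  have h3 : 0.99 * (1999 * bb n) ≤ rr T (n + 1) * (aa T n n - aa T n (n + 1)) :=
    mul_le_mul hr'.1 h1 (by positivity) (by linarith)
  rw [e]
  have h4 : bb n ^ 2 ≤ bb n / 10000 := by nlinarith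
  linarith

lemma gg_off {n m : ℕ} (hnm : m ≠ n) : |gg T n m| ≤ 75 * bb n := by
  have hr := rr_mem T hT m
  have hr' := rr_mem T hT (m + 1)
  have hs := rr_step T hT m
  have hb := bb_pos n
  have hb1 := bb_le n
  have hbm := bb_pos m
  have hbm1 := bb_le m
  have hsn := ss_nonneg n m
  have hVn := VV_nonneg n m
  have hV1 := VV_le_one n m
  have e : gg T n m = (rr T m - rr T (m + 1)) * aa T n m
      + rr T (m + 1) * (aa T n m - aa T n (m + 1)) := by unfold gg; ring
  have t1 := TT_le' T hT n m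
  have t2 := TT_le' T hT n (m + 1)
  have hbsq : bb n ^ 2 ≤ bb n / 10000 := by nlinarith
  -- first term
  have h1 : |aa T n m| ≤ 2 * ss n m + 2001 * bb n := by
    unfold aa
    rw [inner_FF_xx, if_neg (fun h => hnm h.symm)]
    have h2 : 0 ≤ bb n * VV n m := by positivity
    have h3 : bb n * VV n m ≤ bb n := by nlinarith
    have t1' := abs_le.1 t1
    rw [abs_le]
    constructor <;> nlinarith [t1'.1, t1'.2]
  have h2 : |(rr T m - rr T (m + 1)) * aa T n m| ≤ 0.1 * bb n := by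
    rw [abs_mul]
    have h3 : |rr T m - rr T (m + 1)| * |aa T n m| ≤
        (12 * bb m ^ 2) * (2 * ss n m + 2001 * bb n) :=
      mul_le_mul hs h1 (abs_nonneg _) (by positivity)
    have h4 := ss_adj n m
    have h5 : bb m ^ 2 * ss n m ≤ 4 * bb n * bb m := by nlinarith
    have h6 : bb n * bb m ≤ bb n / 10000 := by nlinarith
    have h7 : bb m ^ 2 ≤ 1 / 100000000 := by nlinarith
    have h8 : bb m ^ 2 * bb n ≤ 1 / 100000000 * bb n := mul_le_mul_of_nonneg_right h7 hb.le
    nlinarith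
  -- second term
  have h3 : |aa T n m - aa T n (m + 1)| ≤ 73 * bb n := by
    have e2 : aa T n m - aa T n (m + 1) = 2 * (ss n m - ss n (m + 1))
        - (if n = m + 1 then bb n ^ 2 else 0) - 2000 * bb n * (VV n m - VV n (m + 1))
        + ⟪T (xx n), T (xx m)⟫ - ⟪T (xx n), T (xx (m + 1))⟫ := by
      unfold aa
      rw [inner_FF_xx, inner_FF_xx, if_neg (fun h => hnm h.symm)]
      ring
    rw [e2]
    have d1 := abs_le.1 (ss_diff n m)
    have d2 := abs_le.1 (VV_diff hnm)
    have t1' := abs_le.1 t1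
    have t2' := abs_le.1 t2
    have d3 : (0:ℝ) ≤ (if n = m + 1 then bb n ^ 2 else 0) ∧
        (if n = m + 1 then bb n ^ 2 else 0) ≤ bb n / 10000 := by
      split_ifs
      · exact ⟨by positivity, hbsq⟩
      · exact ⟨le_rfl, by positivity⟩
    have d4 : bb n * (VV n m - VV n (m + 1)) ≤ bb n * (1 / 100) :=
      mul_le_mul_of_nonneg_left d2.2 hb.le
    have d5 : bb n * (-(1 / 100)) ≤ bb n * (VV n m - VV n (m + 1)) :=
      mul_le_mul_of_nonneg_left d2.1 hb.le
    rw [abs_le]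
    constructor <;> linarith [d1.1, d1.2, t1'.1, t1'.2, t2'.1, t2'.2, d3.1, d3.2]
  have h4 : |rr T (m + 1) * (aa T n m - aa T n (m + 1))| ≤ 1.01 * (73 * bb n) := by
    rw [abs_mul, abs_of_pos (rr_pos T hT (m + 1))]
    exact mul_le_mul hr'.2 h3 (abs_nonneg _) (by norm_num)
  rw [e]
  refine (abs_add_le _ _).trans ?_
  linarith

/-- points of the run -/
noncomputable def ff (n : ℕ) : HH := rr T n • xx n

omit hT in
lemma FF_ff (n m : ℕ) : ⟪FF n, ff T m - ff T (m + 1)⟫ + ⟪T (xx n), T (ff T m - ff T (m + 1))⟫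
    = gg T n m := by
  unfold ff gg aa
  rw [inner_sub_right, map_sub, inner_sub_right, map_smul, map_smul]
  simp only [real_inner_smul_right]
  ring

lemma NN_ff (n : ℕ) : NN kk T (ff T n) = rr T n * NN kk T (xx n) := by
  unfold ff
  rw [NN_smul norm_kk, abs_of_pos (rr_pos T hT n)]

lemma NN_xx_sq (n : ℕ) : NN kk T (xx n) ^ 2 = aa T n n := by
  unfold aa
  exact (A_self norm_kk T (inner_FF_kk_self n) (inner_FF_kk_le n)).symm

lemma NN_xx_pos (n : ℕ) : 1 ≤ NN kk T (xx n) ∧ NN kk T (xx n) ≤ 1.8 := by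
  have h1 := NN_xx_sq T hT n
  have h2 := aa_self T hT n
  have h3 := NN_nonneg (k := kk) T (xx n)
  constructor
  · by_contra hcon
    push Not at hcon
    nlinarith
  · by_contra hcon
    push Not at hcon
    nlinarith

lemma NN_diff_le (n : ℕ) : NN kk T (ff T n - ff T (n + 1)) ≤ 4 := by
  have h1 := NN_add_le norm_kk T (ff T n) (-ff T (n + 1))
  have h2 : NN kk T (-ff T (n + 1)) = NN kk T (ff T (n + 1)) := by
    have := NN_smul norm_kk T (-1) (ff T (n + 1))
    rw [neg_smul, one_smul, abs_neg, abs_one, one_mul] at this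
    exact this
  rw [h2, ← sub_eq_add_neg, NN_ff T hT, NN_ff T hT] at h1
  have a1 := rr_mem T hT n
  have a2 := rr_mem T hT (n + 1)
  have b1 := NN_xx_pos T hT n
  have b2 := NN_xx_pos T hT (n + 1)
  nlinarith [a1.1, a1.2, a2.1, a2.2, b1.1, b1.2, b2.1, b2.2]

lemma NN_diff_ge (n : ℕ) : 1 / 2 ≤ NN kk T (ff T n - ff T (n + 1)) := by
  refine le_trans ?_ (N1_le_NN norm_kk T _)
  set y := ff T n - ff T (n + 1) with hy
  have h1 := inner_le_N1 norm_kk (sg (Sum.inr (n + 1))) y
  have hpk : pk kk (sg (Sum.inr (n + 1))) ≤ 2000 := by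
    refine ciSup_le fun m => ?_
    rw [inner_sg_left, kk_inr, vv_VV, abs_mul, abs_of_nonneg (VV_nonneg n m)]
    have := VV_le_one n m
    norm_num
    linarith
  have hQ : Real.sqrt (Qk kk (sg (Sum.inr (n + 1)))) ≤ 2001 := by
    unfold Qk
    rw [norm_sg, Real.sqrt_le_left (by norm_num)]
    have := pk_nonneg norm_kk (sg (Sum.inr (n + 1)))
    nlinarith
  have hval : 1980 ≤ ⟪sg (Sum.inr (n + 1)), y⟫ := by
    rw [hy, inner_sub_right]
    unfold ff
    rw [real_inner_smul_right, real_inner_smul_right, inner_sg_left, inner_sg_left, xx_apply,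
      xx_apply, FF_inr, FF_inr, kk_inr, kk_inr, vv_VV, vv_VV, VV_self, VV_succ, if_pos rfl,
      if_neg (by omega)]
    have a1 := rr_mem T hT n
    have a2 := rr_mem T hT (n + 1)
    have := bb_pos n
    nlinarith [a1.1, a1.2, a2.1, a2.2]
  have h2 := N1_nonneg norm_kk y
  have h3 : 1980 ≤ 2001 * N1 kk y := by
    refine hval.trans (h1.trans ?_)
    exact mul_le_mul_of_nonneg_right hQ h2
  linarith

lemma greedy (n m : ℕ) : |gg T n m| * NN kk T (ff T n - ff T (n + 1)) ≤
    gg T n n * NN kk T (ff T m - ff T (m + 1)) := by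
  have hb := bb_pos n
  have hs := gg_self T hT n
  by_cases h : m = n
  · subst h
    rw [abs_of_pos (by linarith)]
  · have h1 := gg_off T hT h
    have h2 := NN_diff_le T hT n
    have h3 := NN_diff_ge T hT m
    have h4 : |gg T n m| * NN kk T (ff T n - ff T (n + 1)) ≤ 75 * bb n * 4 :=
      mul_le_mul h1 h2 (NN_nonneg T _) (by positivity)
    have h5 : 1900 * bb n * (1 / 2) ≤ gg T n n * NN kk T (ff T m - ff T (m + 1)) :=
      mul_le_mul hs h3 (by norm_num) (by linarith)
    linarith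

end est

end Pool.Agent.Helper57_DGA
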