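import Mathlib

/-!
# A C^{1,1} renorming of a Hilbert space with flat faces

For a bounded sequence `k` in a real Hilbert space `H` and a bounded operator `T` we study
`N x = sqrt (N1 x ^ 2 + ‖T x‖ ^ 2)`, where `N1` is the norm dual to
`F ↦ sqrt (‖F‖ ^ 2 + (sup_n |⟪F, k n⟫|) ^ 2)`.
-/

set_option linter.unusedSectionVars false

namespace Pool.Agent.Helper57_DGA

open scoped RealInnerProductSpace

variable {H : Type} [NormedAddCommGroup H] [InnerProductSpace ℝ H]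

/-- `pk k F = sup_n |⟪F, k n⟫|`. -/
noncomputable def pk (k : ℕ → H) (F : H) : ℝ := ⨆ n, |⟪F, k n⟫|

/-- The square of the dual norm. -/
noncomputable def Qk (k : ℕ → H) (F : H) : ℝ := ‖F‖ ^ 2 + pk k F ^ 2

/-- The norm whose dual norm is `sqrt (Qk k F)`. -/
noncomputable def N1 (k : ℕ → H) (x : H) : ℝ := ⨆ F : {F : H // Qk k F ≤ 1}, ⟪F.1, x⟫

section
variable {k : ℕ → H} {R : ℝ} (hk : ∀ n, ‖k n‖ ≤ R)
include hk

lemma R_nonneg : 0 ≤ R := (norm_nonneg _).trans (hk 0)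

lemma pk_bdd (F : H) : BddAbove (Set.range fun n => |⟪F, k n⟫|) := by
  refine ⟨‖F‖ * R, ?_⟩
  rintro _ ⟨n, rfl⟩
  exact (abs_real_inner_le_norm _ _).trans (mul_le_mul_of_nonneg_left (hk n) (norm_nonneg _))

lemma le_pk (F : H) (n : ℕ) : |⟪F, k n⟫| ≤ pk k F := le_ciSup (pk_bdd hk F) n

lemma pk_nonneg (F : H) : 0 ≤ pk k F := (abs_nonneg _).trans (le_pk hk F 0)

lemma pk_le (F : H) : pk k F ≤ ‖F‖ * R := by
  refine ciSup_le fun n => ?_
  exact (abs_real_inner_le_norm _ _).trans (mul_le_mul_of_nonneg_left (hk n) (norm_nonneg _))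

lemma pk_add_le (F G : H) : pk k (F + G) ≤ pk k F + pk k G := by
  refine ciSup_le fun n => ?_
  rw [inner_add_left]
  exact (abs_add_le _ _).trans (add_le_add (le_pk hk F n) (le_pk hk G n))

lemma pk_smul_le (c : ℝ) (F : H) : pk k (c • F) ≤ |c| * pk k F := by
  refine ciSup_le fun n => ?_
  rw [real_inner_smul_left, abs_mul]
  exact mul_le_mul_of_nonneg_left (le_pk hk F n) (abs_nonneg _)

lemma Qk_smul_le (c : ℝ) (F : H) : Qk k (c • F) ≤ c ^ 2 * Qk k F := by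
  unfold Qk
  have h1 := pk_smul_le hk c F
  have h2 : (pk k (c • F)) ^ 2 ≤ (|c| * pk k F) ^ 2 :=
    pow_le_pow_left₀ (pk_nonneg hk _) h1 2
  rw [norm_smul, mul_pow, Real.norm_eq_abs, sq_abs]
  rw [mul_pow, sq_abs] at h2
  nlinarith

lemma Qk_nonneg (F : H) : 0 ≤ Qk k F := by unfold Qk; positivity

lemma Qk_zero_le : Qk k (0 : H) ≤ 1 := by
  have := Qk_smul_le hk 0 (0 : H)
  simp at this
  linarith

lemma N1_bdd (x : H) : BddAbove (Set.range fun F : {F : H // Qk k F ≤ 1} => ⟪F.1, x⟫) := by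
  refine ⟨‖x‖, ?_⟩
  rintro _ ⟨⟨F, hF⟩, rfl⟩
  have h1 : ‖F‖ ≤ 1 := by
    unfold Qk at hF
    have : ‖F‖ ^ 2 ≤ 1 := by nlinarith [sq_nonneg (pk k F)]
    nlinarith [norm_nonneg F]
  calc ⟪F, x⟫ ≤ ‖F‖ * ‖x‖ := real_inner_le_norm _ _
    _ ≤ 1 * ‖x‖ := mul_le_mul_of_nonneg_right h1 (norm_nonneg _)
    _ = ‖x‖ := one_mul _

lemma le_N1 {F : H} (hF : Qk k F ≤ 1) (x : H) : ⟪F, x⟫ ≤ N1 k x :=
  le_ciSup (N1_bdd hk x) ⟨F, hF⟩

lemma N1_nonneg (x : H) : 0 ≤ N1 k x := by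
  have := le_N1 hk (Qk_zero_le hk) x
  simpa using this

lemma N1_nonempty : Nonempty {F : H // Qk k F ≤ 1} := ⟨⟨0, Qk_zero_le hk⟩⟩

lemma N1_le (x : H) : N1 k x ≤ ‖x‖ := by
  have := N1_nonempty hk
  refine ciSup_le fun F => ?_
  obtain ⟨F, hF⟩ := F
  have h1 : ‖F‖ ≤ 1 := by
    unfold Qk at hF
    have : ‖F‖ ^ 2 ≤ 1 := by nlinarith [sq_nonneg (pk k F)]
    nlinarith [norm_nonneg F]
  calc ⟪F, x⟫ ≤ ‖F‖ * ‖x‖ := real_inner_le_norm _ _
    _ ≤ 1 * ‖x‖ := mul_le_mul_of_nonneg_right h1 (norm_nonneg _)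
    _ = ‖x‖ := one_mul _

/-- Duality inequality. -/
lemma inner_le_N1 (F x : H) : ⟪F, x⟫ ≤ Real.sqrt (Qk k F) * N1 k x := by
  rcases eq_or_lt_of_le (Qk_nonneg hk F) with h | h
  · have hF : F = 0 := by
      unfold Qk at h
      have : ‖F‖ ^ 2 ≤ 0 := by nlinarith [sq_nonneg (pk k F)]
      have : ‖F‖ = 0 := by nlinarith [norm_nonneg F]
      simpa using this
    subst hF
    simp only [inner_zero_left]
    exact mul_nonneg (Real.sqrt_nonneg _) (N1_nonneg hk x)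
  · set s := Real.sqrt (Qk k F) with hs
    have hs0 : 0 < s := Real.sqrt_pos.2 h
    have hsq : s ^ 2 = Qk k F := Real.sq_sqrt h.le
    have hQ : Qk k (s⁻¹ • F) ≤ 1 := by
      refine (Qk_smul_le hk _ _).trans ?_
      rw [← hsq]
      have : (s⁻¹) ^ 2 * s ^ 2 = 1 := by
        field_simp
      rw [this]
    have := le_N1 hk hQ x
    rw [real_inner_smul_left] at this
    have h2 := mul_le_mul_of_nonneg_left this hs0.le
    rwa [← mul_assoc, mul_inv_cancel₀ hs0.ne', one_mul] at h2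

lemma N1_add_le (x y : H) : N1 k (x + y) ≤ N1 k x + N1 k y := by
  have := N1_nonempty hk
  refine ciSup_le fun F => ?_
  rw [inner_add_right]
  exact add_le_add (le_N1 hk F.2 x) (le_N1 hk F.2 y)

lemma N1_smul_le (c : ℝ) (x : H) : N1 k (c • x) ≤ |c| * N1 k x := by
  have := N1_nonempty hk
  refine ciSup_le fun F => ?_
  rw [real_inner_smul_right]
  rcases le_total 0 c with hc | hc
  · rw [abs_of_nonneg hc]
    exact mul_le_mul_of_nonneg_left (le_N1 hk F.2 x) hc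
  · rw [abs_of_nonpos hc]
    have hneg : Qk k (-F.1) ≤ 1 := by
      have := Qk_smul_le hk (-1) F.1
      simp only [neg_smul, one_smul] at this
      have h2 := F.2
      nlinarith
    have := le_N1 hk hneg x
    rw [inner_neg_left] at this
    nlinarith

lemma N1_smul (c : ℝ) (x : H) : N1 k (c • x) = |c| * N1 k x := by
  apply le_antisymm (N1_smul_le hk c x)
  rcases eq_or_ne c 0 with rfl | hc
  · simp [N1_nonneg hk]
  · have := N1_smul_le hk c⁻¹ (c • x)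
    rw [smul_smul, inv_mul_cancel₀ hc, one_smul, abs_inv] at this
    have hc' : 0 < |c| := abs_pos.2 hc
    calc |c| * N1 k x ≤ |c| * (|c|⁻¹ * N1 k (c • x)) := mul_le_mul_of_nonneg_left this hc'.le
      _ = N1 k (c • x) := by rw [← mul_assoc, mul_inv_cancel₀ hc'.ne', one_mul]

lemma norm_le_N1 (x : H) : ‖x‖ ≤ Real.sqrt (1 + R ^ 2) * N1 k x := by
  have h := inner_le_N1 hk x x
  rw [real_inner_self_eq_norm_sq] at h
  have hQ : Qk k x ≤ (1 + R ^ 2) * ‖x‖ ^ 2 := by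
    unfold Qk
    have h1 := pow_le_pow_left₀ (pk_nonneg hk x) (pk_le hk x) 2
    nlinarith
  have h2 : Real.sqrt (Qk k x) ≤ Real.sqrt (1 + R ^ 2) * ‖x‖ := by
    have e : Real.sqrt (1 + R ^ 2) * ‖x‖ = Real.sqrt ((1 + R ^ 2) * ‖x‖ ^ 2) := by
      rw [Real.sqrt_mul (by positivity), Real.sqrt_sq (norm_nonneg x)]
    rw [e]
    exact Real.sqrt_le_sqrt hQ
  rcases eq_or_lt_of_le (norm_nonneg x) with h0 | h0
  · rw [← h0]
    exact mul_nonneg (Real.sqrt_nonneg _) (N1_nonneg hk x)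
  · have h3 : ‖x‖ ^ 2 ≤ (Real.sqrt (1 + R ^ 2) * ‖x‖) * N1 k x :=
      h.trans (mul_le_mul_of_nonneg_right h2 (N1_nonneg hk x))
    have h4 : ‖x‖ * ‖x‖ ≤ ‖x‖ * (Real.sqrt (1 + R ^ 2) * N1 k x) := by nlinarith
    exact le_of_mul_le_mul_left h4 h0

lemma Qk_parallelogram (F G : H) :
    Qk k (F + G) + ‖F - G‖ ^ 2 ≤ 2 * Qk k F + 2 * Qk k G := by
  unfold Qk
  have h1 := parallelogram_law_with_norm ℝ F G
  have h2 : pk k (F + G) ^ 2 ≤ (pk k F + pk k G) ^ 2 :=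
    pow_le_pow_left₀ (pk_nonneg hk _) (pk_add_le hk F G) 2
  nlinarith [sq_nonneg (pk k F - pk k G)]

/-- The key smoothness inequality for `N1`. -/
lemma N1_smooth (x y : H) :
    N1 k (x + y) ^ 2 + N1 k (x - y) ^ 2 ≤ 2 * N1 k x ^ 2 + 2 * ‖y‖ ^ 2 := by
  have := N1_nonempty hk
  set s := N1 k (x + y) with hs
  set t := N1 k (x - y) with ht
  have hs0 : 0 ≤ s := N1_nonneg hk _
  have ht0 : 0 ≤ t := N1_nonneg hk _
  set M := Real.sqrt (2 * (s ^ 2 + t ^ 2)) * Real.sqrt (N1 k x ^ 2 + ‖y‖ ^ 2) with hM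
  have key : ∀ F G : {F : H // Qk k F ≤ 1}, s * ⟪F.1, x + y⟫ + t * ⟪G.1, x - y⟫ ≤ M := by
    intro F G
    have e : s * ⟪F.1, x + y⟫ + t * ⟪G.1, x - y⟫
        = ⟪s • F.1 + t • G.1, x⟫ + ⟪s • F.1 - t • G.1, y⟫ := by
      simp only [inner_add_left, inner_sub_left, inner_add_right, inner_sub_right,
        real_inner_smul_left]
      ring
    rw [e]
    have h1 := inner_le_N1 hk (s • F.1 + t • G.1) x
    have h2 := real_inner_le_norm (s • F.1 - t • G.1) y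
    have h3 := Qk_parallelogram hk (s • F.1) (t • G.1)
    have h4 := Qk_smul_le hk s F.1
    have h5 := Qk_smul_le hk t G.1
    have hF := F.2
    have hG := G.2
    have h6 : Qk k (s • F.1 + t • G.1) + ‖s • F.1 - t • G.1‖ ^ 2 ≤ 2 * (s ^ 2 + t ^ 2) := by
      nlinarith [sq_nonneg s, sq_nonneg t]
    set A := Real.sqrt (Qk k (s • F.1 + t • G.1)) with hA
    set d := ‖s • F.1 - t • G.1‖ with hd
    have hA2 : A ^ 2 = Qk k (s • F.1 + t • G.1) := Real.sq_sqrt (Qk_nonneg hk _)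
    have h7 : (A * N1 k x + d * ‖y‖) ^ 2 ≤ (2 * (s ^ 2 + t ^ 2)) * (N1 k x ^ 2 + ‖y‖ ^ 2) := by
      have : (A * N1 k x + d * ‖y‖) ^ 2 ≤ (A ^ 2 + d ^ 2) * (N1 k x ^ 2 + ‖y‖ ^ 2) := by
        nlinarith [sq_nonneg (A * ‖y‖ - d * N1 k x)]
      refine this.trans ?_
      refine mul_le_mul_of_nonneg_right ?_ (by positivity)
      rw [hA2]; exact h6
    have h8 : A * N1 k x + d * ‖y‖ ≤ M := by
      rw [hM, ← Real.sqrt_mul (by positivity)]
      exact Real.le_sqrt_of_sq_le h7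
    linarith
  have key2 : s * s + t * t ≤ M := by
    have step1 : ∀ G : {F : H // Qk k F ≤ 1}, s * s + t * ⟪G.1, x - y⟫ ≤ M := by
      intro G
      have : s * s ≤ M - t * ⟪G.1, x - y⟫ := by
        have e : s * s = ⨆ F : {F : H // Qk k F ≤ 1}, s * ⟪F.1, x + y⟫ := by
          rw [← Real.mul_iSup_of_nonneg hs0]
          rfl
        rw [e]
        exact ciSup_le fun F => by linarith [key F G]
      linarith
    have : t * t ≤ M - s * s := by
      have e : t * t = ⨆ F : {F : H // Qk k F ≤ 1}, t * ⟪F.1, x - y⟫ := by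
        rw [← Real.mul_iSup_of_nonneg ht0]
        rfl
      rw [e]
      exact ciSup_le fun G => by linarith [step1 G]
    linarith
  have hpos : 0 ≤ 2 * (s ^ 2 + t ^ 2) := by positivity
  have hpos2 : 0 ≤ N1 k x ^ 2 + ‖y‖ ^ 2 := by positivity
  have hMsq : M ^ 2 = 2 * (s ^ 2 + t ^ 2) * (N1 k x ^ 2 + ‖y‖ ^ 2) := by
    rw [hM, mul_pow, Real.sq_sqrt hpos, Real.sq_sqrt hpos2]
  have h9 : (s ^ 2 + t ^ 2) ^ 2 ≤ 2 * (s ^ 2 + t ^ 2) * (N1 k x ^ 2 + ‖y‖ ^ 2) := by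
    rw [← hMsq]
    have : s ^ 2 + t ^ 2 ≤ M := by nlinarith [key2]
    exact pow_le_pow_left₀ (by positivity) this 2
  rcases eq_or_lt_of_le (show (0:ℝ) ≤ s ^ 2 + t ^ 2 by positivity) with h0 | h0
  · rw [← h0]; positivity
  · have : (s ^ 2 + t ^ 2) * (s ^ 2 + t ^ 2) ≤
        (s ^ 2 + t ^ 2) * (2 * (N1 k x ^ 2 + ‖y‖ ^ 2)) := by nlinarith
    have := le_of_mul_le_mul_left this h0
    linarith

end

/-- The final norm. -/
noncomputable def NN (k : ℕ → H) (T : H →L[ℝ] H) (x : H) : ℝ :=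
  Real.sqrt (N1 k x ^ 2 + ‖T x‖ ^ 2)

section
variable {k : ℕ → H} {R : ℝ} (hk : ∀ n, ‖k n‖ ≤ R) (T : H →L[ℝ] H)

lemma NN_nonneg (x : H) : 0 ≤ NN k T x := Real.sqrt_nonneg _

lemma NN_sq (x : H) : NN k T x ^ 2 = N1 k x ^ 2 + ‖T x‖ ^ 2 :=
  Real.sq_sqrt (by positivity)

include hk

lemma N1_le_NN (x : H) : N1 k x ≤ NN k T x :=
  Real.le_sqrt_of_sq_le (by nlinarith [sq_nonneg ‖T x‖])

lemma norm_le_NN (x : H) : ‖x‖ ≤ Real.sqrt (1 + R ^ 2) * NN k T x :=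
  (norm_le_N1 hk x).trans
    (mul_le_mul_of_nonneg_left (N1_le_NN hk T x) (Real.sqrt_nonneg _))

lemma NN_le (x : H) : NN k T x ≤ Real.sqrt (1 + ‖T‖ ^ 2) * ‖x‖ := by
  unfold NN
  rw [Real.sqrt_le_left (by positivity), mul_pow, Real.sq_sqrt (by positivity)]
  have h1 := pow_le_pow_left₀ (N1_nonneg hk x) (N1_le hk x) 2
  have h2 := pow_le_pow_left₀ (norm_nonneg _) (T.le_opNorm x) 2
  nlinarith

lemma NN_smul (c : ℝ) (x : H) : NN k T (c • x) = |c| * NN k T x := by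
  unfold NN
  rw [N1_smul hk, map_smul, norm_smul, Real.norm_eq_abs, mul_pow, mul_pow, ← mul_add,
    Real.sqrt_mul (sq_nonneg _), Real.sqrt_sq (abs_nonneg _)]

lemma NN_add_le (x y : H) : NN k T (x + y) ≤ NN k T x + NN k T y := by
  have h1 := N1_add_le hk x y
  have h2 : ‖T (x + y)‖ ≤ ‖T x‖ + ‖T y‖ := by rw [map_add]; exact norm_add_le _ _
  have hx := NN_sq (k := k) T x
  have hy := NN_sq (k := k) T y
  have hx0 := NN_nonneg (k := k) T x
  have hy0 := NN_nonneg (k := k) T y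
  rw [show NN k T (x + y) = Real.sqrt (N1 k (x + y) ^ 2 + ‖T (x + y)‖ ^ 2) from rfl,
    Real.sqrt_le_left (by positivity)]
  have h3 := pow_le_pow_left₀ (N1_nonneg hk (x + y)) h1 2
  have h4 := pow_le_pow_left₀ (norm_nonneg (T (x + y))) h2 2
  have h5 : N1 k x * N1 k y + ‖T x‖ * ‖T y‖ ≤ NN k T x * NN k T y := by
    have e1 : (N1 k x * N1 k y + ‖T x‖ * ‖T y‖) ^ 2 ≤ (NN k T x * NN k T y) ^ 2 := by
      rw [mul_pow, hx, hy]
      nlinarith [sq_nonneg (N1 k x * ‖T y‖ - ‖T x‖ * N1 k y)]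
    exact le_of_sq_le_sq e1 (by positivity)
  nlinarith

end

end Pool.Agent.Helper57_DGA
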