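import Mathlib

set_option linter.unusedSectionVars false

namespace Pool.Agent.Helper57_DGA

open scoped RealInnerProductSpace
open Filter Topology

/-- The Hilbert space `ℓ²(ℕ ⊕ ℕ)`. -/
abbrev HH : Type := lp (fun _ : ℕ ⊕ ℕ => ℝ) 2

/-- coordinate vectors -/
noncomputable def sg (i : ℕ ⊕ ℕ) : HH := lp.single 2 i (1 : ℝ)

lemma inner_sg_left (i : ℕ ⊕ ℕ) (x : HH) : ⟪sg i, x⟫ = x i := by
  unfold sg
  rw [lp.inner_single_left]
  simp

lemma inner_sg_right (i : ℕ ⊕ ℕ) (x : HH) : ⟪x, sg i⟫ = x i := by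
  rw [real_inner_comm, inner_sg_left]

lemma sg_apply (i j : ℕ ⊕ ℕ) : (sg i : HH) j = if i = j then 1 else 0 := by
  unfold sg
  rw [lp.single_apply]
  by_cases h : i = j
  · subst h; simp
  · rw [if_neg h, Pi.single_apply, if_neg (Ne.symm h)]

lemma norm_sg (i : ℕ ⊕ ℕ) : ‖(sg i : HH)‖ = 1 := by
  have : ‖(sg i : HH)‖ ^ 2 = 1 := by
    rw [← real_inner_self_eq_norm_sq, inner_sg_left, sg_apply, if_pos rfl]
  nlinarith [norm_nonneg (sg i : HH)]

/-- a point on the circle through `sg (inl j)` and `sg (inl (j+1))` -/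
noncomputable def uu (j : ℕ) (α : ℝ) : HH :=
  Real.cos α • sg (Sum.inl j) + Real.sin α • sg (Sum.inl (j + 1))

lemma uu_apply_inl (j : ℕ) (α : ℝ) (i : ℕ) :
    (uu j α) (Sum.inl i) = (if j = i then Real.cos α else 0) +
      (if j + 1 = i then Real.sin α else 0) := by
  unfold uu
  simp only [lp.coeFn_add, lp.coeFn_smul, Pi.add_apply, Pi.smul_apply, sg_apply, smul_eq_mul,
    Sum.inl.injEq]
  split_ifs <;> simp

lemma uu_apply_inr (j : ℕ) (α : ℝ) (i : ℕ) : (uu j α) (Sum.inr i) = 0 := by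
  unfold uu
  simp only [lp.coeFn_add, lp.coeFn_smul, Pi.add_apply, Pi.smul_apply, sg_apply, smul_eq_mul]
  simp

lemma inner_uu (j : ℕ) (α : ℝ) (x : HH) :
    ⟪uu j α, x⟫ = Real.cos α * x (Sum.inl j) + Real.sin α * x (Sum.inl (j + 1)) := by
  unfold uu
  rw [inner_add_left, real_inner_smul_left, real_inner_smul_left, inner_sg_left, inner_sg_left]

lemma inner_uu_same (j : ℕ) (α β : ℝ) : ⟪uu j α, uu j β⟫ = Real.cos (α - β) := by
  rw [inner_uu, uu_apply_inl, uu_apply_inl, Real.cos_sub]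
  simp

lemma inner_uu_succ (j : ℕ) (α β : ℝ) :
    ⟪uu j α, uu (j + 1) β⟫ = Real.sin α * Real.cos β := by
  rw [inner_uu, uu_apply_inl, uu_apply_inl, if_neg (by omega), if_neg (by omega), if_pos rfl,
    if_neg (by omega)]
  simp

lemma inner_uu_far {j i : ℕ} (h : j + 2 ≤ i) (α β : ℝ) : ⟪uu j α, uu i β⟫ = 0 := by
  rw [inner_uu, uu_apply_inl, uu_apply_inl, if_neg (by omega), if_neg (by omega),
    if_neg (by omega), if_neg (by omega)]
  simp

lemma norm_uu (j : ℕ) (α : ℝ) : ‖uu j α‖ = 1 := by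
  have : ‖uu j α‖ ^ 2 = 1 := by
    rw [← real_inner_self_eq_norm_sq, inner_uu_same, sub_self, Real.cos_zero]
  nlinarith [norm_nonneg (uu j α)]

/-- the angle -/
noncomputable def ang (n : ℕ) : ℝ :=
  Real.pi / 2 * (((n : ℝ) - 2 ^ (Nat.log 2 n)) / 2 ^ (Nat.log 2 n))

/-- the slowly rotating unit vectors -/
noncomputable def SS (n : ℕ) : HH := uu (Nat.log 2 n) (ang n)

lemma pow_log_le {n : ℕ} (hn : 1 ≤ n) : (2 : ℝ) ^ (Nat.log 2 n) ≤ n := by
  have := Nat.pow_log_le_self 2 (show n ≠ 0 by omega)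
  exact_mod_cast this

lemma lt_pow_log (n : ℕ) : (n : ℝ) < 2 * 2 ^ (Nat.log 2 n) := by
  have := Nat.lt_pow_succ_log_self (show 1 < 2 by norm_num) n
  rw [Nat.succ_eq_add_one, pow_succ] at this
  have h2 : (n : ℝ) < ((2 ^ (Nat.log 2 n) * 2 : ℕ) : ℝ) := by exact_mod_cast this
  push_cast at h2
  linarith

lemma ang_nonneg {n : ℕ} (hn : 1 ≤ n) : 0 ≤ ang n := by
  unfold ang
  have := pow_log_le hn
  have hpi := Real.pi_pos
  have : 0 ≤ (n : ℝ) - 2 ^ (Nat.log 2 n) := by linarith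
  positivity

lemma ang_le (n : ℕ) : ang n ≤ Real.pi / 2 := by
  unfold ang
  have := lt_pow_log n
  have hpi := Real.pi_pos
  have h0 : (0 : ℝ) < 2 ^ (Nat.log 2 n) := by positivity
  have : ((n : ℝ) - 2 ^ (Nat.log 2 n)) / 2 ^ (Nat.log 2 n) ≤ 1 := by
    rw [div_le_one h0]; linarith
  calc Real.pi / 2 * (((n : ℝ) - 2 ^ (Nat.log 2 n)) / 2 ^ (Nat.log 2 n))
      ≤ Real.pi / 2 * 1 := mul_le_mul_of_nonneg_left this (by positivity)
    _ = _ := mul_one _

lemma cos_ang {n : ℕ} (hn : 1 ≤ n) : 0 ≤ Real.cos (ang n) :=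
  Real.cos_nonneg_of_neg_pi_div_two_le_of_le (by linarith [ang_nonneg hn, Real.pi_pos]) (ang_le n)

lemma sin_ang {n : ℕ} (hn : 1 ≤ n) : 0 ≤ Real.sin (ang n) :=
  Real.sin_nonneg_of_nonneg_of_le_pi (ang_nonneg hn) (by linarith [ang_le n, Real.pi_pos])

lemma SS_nonneg {n m : ℕ} (hn : 1 ≤ n) (hm : 1 ≤ m) : 0 ≤ ⟪SS n, SS m⟫ := by
  unfold SS
  rw [inner_uu, uu_apply_inl, uu_apply_inl]
  have h1 := cos_ang hn
  have h2 := sin_ang hn
  have h3 := cos_ang hm
  have h4 := sin_ang hm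
  split_ifs <;> positivity

lemma norm_SS (n : ℕ) : ‖SS n‖ = 1 := norm_uu _ _

lemma SS_le_one (n m : ℕ) : ⟪SS n, SS m⟫ ≤ 1 := by
  have := real_inner_le_norm (SS n) (SS m)
  rwa [norm_SS, norm_SS, one_mul] at this

/-- `SS (n+1)` is obtained from `SS n` by a rotation. -/
lemma SS_succ {n : ℕ} (hn : 1 ≤ n) :
    SS (n + 1) = uu (Nat.log 2 n) (ang n + Real.pi / 2 / 2 ^ (Nat.log 2 n)) := by
  set j := Nat.log 2 n with hj
  have h0 : (0 : ℝ) < 2 ^ j := by positivity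
  have h1 : 2 ^ j ≤ n := Nat.pow_log_le_self 2 (by omega)
  have h2 : n < 2 ^ (j + 1) := Nat.lt_pow_succ_log_self (by norm_num) n
  rcases Nat.lt_or_ge (n + 1) (2 ^ (j + 1)) with h | h
  · have hlog : Nat.log 2 (n + 1) = j := Nat.log_eq_of_pow_le_of_lt_pow (by omega) h
    unfold SS ang
    rw [hlog, ← hj]
    congr 1
    push_cast
    field_simp
    ring
  · have hn1 : n + 1 = 2 ^ (j + 1) := by omega
    have hlog : Nat.log 2 (n + 1) = j + 1 := by rw [hn1]; exact Nat.log_pow (by norm_num) _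
    have hang : ang (n + 1) = 0 := by
      unfold ang
      rw [hlog, hn1]
      push_cast
      simp
    have hang2 : ang n + Real.pi / 2 / 2 ^ j = Real.pi / 2 := by
      unfold ang
      rw [← hj]
      have : (n : ℝ) = 2 * 2 ^ j - 1 := by
        have : ((n + 1 : ℕ) : ℝ) = ((2 ^ (j + 1) : ℕ) : ℝ) := by rw [hn1]
        push_cast at this
        rw [pow_succ] at this
        linarith
      rw [this]
      field_simp
      ring
    unfold SS
    rw [hlog, hang, hang2]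
    unfold uu
    simp

lemma SS_step {n : ℕ} (hn : 1 ≤ n) : ‖SS (n + 1) - SS n‖ ≤ Real.pi / n := by
  rw [SS_succ hn]
  set j := Nat.log 2 n with hj
  set h := Real.pi / 2 / 2 ^ j with hh
  have hn0 : (0 : ℝ) < n := by exact_mod_cast hn
  have h0 : (0 : ℝ) < 2 ^ j := by positivity
  have hpi := Real.pi_pos
  have hle : h ≤ Real.pi / n := by
    rw [hh, div_div, div_le_div_iff_of_pos_left hpi (by positivity) hn0]
    exact (lt_pow_log n).le
  have hh0 : 0 ≤ h := by positivity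
  refine le_trans ?_ hle
  have e : ‖uu j (ang n + h) - SS n‖ ^ 2 ≤ h ^ 2 := by
    have : SS n = uu j (ang n) := rfl
    rw [this, @norm_sub_sq_real, norm_uu, norm_uu, inner_uu_same]
    have := Real.one_sub_sq_div_two_le_cos (x := ang n + h - ang n)
    have e2 : ang n + h - ang n = h := by ring
    rw [e2] at this ⊢
    linarith
  exact le_of_sq_le_sq e hh0 

lemma SS_ne_zero {n m : ℕ} (hm : 1 ≤ m) (h : ⟪SS n, SS m⟫ ≠ 0) :
    (n : ℝ) ≤ 4 * m := by
  have hj : Nat.log 2 n ≤ Nat.log 2 m + 1 := by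
    by_contra hcon
    push Not at hcon
    apply h
    rw [real_inner_comm]
    exact inner_uu_far (by omega) _ _
  have h1 := lt_pow_log n
  have h2 := pow_log_le hm
  have h3 : (2 : ℝ) ^ (Nat.log 2 n) ≤ 2 ^ (Nat.log 2 m + 1) :=
    pow_le_pow_right₀ (by norm_num) hj
  rw [pow_succ] at h3
  linarith

lemma SS_coord_zero {n j : ℕ} (h : 2 ^ (j + 1) ≤ n) : (SS n) (Sum.inl j) = 0 := by
  have hn : n ≠ 0 := by
    have : 0 < 2 ^ (j + 1) := by positivity
    omega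
  have hj : j + 1 ≤ Nat.log 2 n := (Nat.le_log_iff_pow_le (by norm_num) hn).2 h
  unfold SS
  rw [uu_apply_inl, if_neg (by omega), if_neg (by omega)]
  simp

lemma SS_inr (n i : ℕ) : (SS n) (Sum.inr i) = 0 := uu_apply_inr _ _ _

/-- Lipschitz estimate of inner products. -/
lemma SS_diff {n m : ℕ} (hn : 1 ≤ n) (hm : 1 ≤ m) :
    |⟪SS n, SS m⟫ - ⟪SS n, SS (m + 1)⟫| ≤ 26 / n := by
  have hn0 : (0 : ℝ) < n := by exact_mod_cast hn
  have hm0 : (0 : ℝ) < m := by exact_mod_cast hm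
  have hm1 : (1 : ℝ) ≤ m := by exact_mod_cast hm
  have hpi : Real.pi < 3.15 := Real.pi_lt_d2
  have hstep : |⟪SS n, SS m⟫ - ⟪SS n, SS (m + 1)⟫| ≤ 3.15 / m := by
    rw [← inner_sub_right]
    refine (abs_real_inner_le_norm _ _).trans ?_
    rw [norm_SS, one_mul, norm_sub_rev]
    refine (SS_step hm).trans ?_
    gcongr
  by_cases h1 : ⟪SS n, SS m⟫ = 0
  · by_cases h2 : ⟪SS n, SS (m + 1)⟫ = 0
    · rw [h1, h2]; simp; positivity
    · have := SS_ne_zero (show 1 ≤ m + 1 by omega) h2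
      push_cast at this
      refine hstep.trans ?_
      rw [div_le_div_iff₀ hm0 hn0]
      linarith
  · have := SS_ne_zero hm h1
    refine hstep.trans ?_
    rw [div_le_div_iff₀ hm0 hn0]
    linarith

end Pool.Agent.Helper57_DGA
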